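import Pool.Agent.T2H96.DM.Defs

set_option autoImplicit false

/-! Package BP of project DM: the Bishop-Phelps-Bollobás theorem (after `Pool/Agent/Helper902/NABP.lean`). -/

namespace Pool.T2H96.DM

universe u

namespace PkgBP

/-- Bishop-Phelps theorem: norm-attaining functionals are norm dense in the dual of a Banach space. -/
theorem BP_core {W : Type*} [NormedAddCommGroup W] [NormedSpace ℝ W] [CompleteSpace W]
    (Φ₀ : W →L[ℝ] ℝ) (ε : ℝ) (hε : 0 < ε) (x₀ : W) (hx₀ : ‖x₀‖ ≤ 1) :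
    ∃ Φ : W →L[ℝ] ℝ, ‖Φ - Φ₀‖ ≤ ε ∧ ∃ y : W, ‖y‖ ≤ 1 ∧ Φ y = ‖Φ‖ ∧ ε * ‖y - x₀‖ ≤ Φ₀ y - Φ₀ x₀ := by
  classical
  -- successor relation
  let S : W → Set W := fun y => {z | ‖z‖ ≤ 1 ∧ ε * ‖z - y‖ ≤ Φ₀ z - Φ₀ y}
  have hbd : ∀ z : W, ‖z‖ ≤ 1 → Φ₀ z ≤ ‖Φ₀‖ := by
    intro z hz
    have h1 : |Φ₀ z| ≤ ‖Φ₀‖ * ‖z‖ := Φ₀.le_opNorm z
    have h2 : ‖Φ₀‖ * ‖z‖ ≤ ‖Φ₀‖ * 1 := mul_le_mul_of_nonneg_left hz (norm_nonneg _)
    exact (le_abs_self _).trans (h1.trans (by simpa using h2))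
  have hrefl : ∀ y : W, ‖y‖ ≤ 1 → y ∈ S y := by
    intro y hy
    exact ⟨hy, by simp⟩
  have htrans : ∀ x y z : W, y ∈ S x → z ∈ S y → z ∈ S x := by
    rintro x y z ⟨_, h1⟩ ⟨hz, h2⟩
    refine ⟨hz, ?_⟩
    have h3 : ‖z - x‖ ≤ ‖z - y‖ + ‖y - x‖ := by
      have : z - x = (z - y) + (y - x) := by abel
      rw [this]; exact norm_add_le _ _
    nlinarith [mul_le_mul_of_nonneg_left h3 hε.le]
  -- almost maximal successor
  have hstep : ∀ (y : {y : W // ‖y‖ ≤ 1}) (n : ℕ), ∃ z : {z : W // ‖z‖ ≤ 1},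
      (z : W) ∈ S y ∧ ∀ w ∈ S (y : W), Φ₀ w ≤ Φ₀ (z : W) + (1 / 2 : ℝ) ^ n := by
    intro y n
    have hne : (Φ₀ '' S (y : W)).Nonempty := ⟨_, _, hrefl y y.2, rfl⟩
    have hbdd : BddAbove (Φ₀ '' S (y : W)) := by
      refine ⟨‖Φ₀‖, ?_⟩
      rintro _ ⟨w, hw, rfl⟩
      exact hbd w hw.1
    have hpos : (0 : ℝ) < (1 / 2 : ℝ) ^ n := by positivity
    obtain ⟨_, ⟨z, hz, rfl⟩, hz2⟩ := exists_lt_of_lt_csSup hne
      (show sSup (Φ₀ '' S (y : W)) - (1 / 2 : ℝ) ^ n < sSup (Φ₀ '' S (y : W)) by linarith)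
    refine ⟨⟨z, hz.1⟩, hz, fun w hw => ?_⟩
    have := le_csSup hbdd (Set.mem_image_of_mem Φ₀ hw)
    simp only
    linarith
  choose nxt hnxt1 hnxt2 using hstep
  let y : ℕ → {y : W // ‖y‖ ≤ 1} := fun n =>
    Nat.rec (motive := fun _ => {y : W // ‖y‖ ≤ 1}) ⟨x₀, hx₀⟩ (fun k yk => nxt yk k) n
  have hy1 : ∀ n : ℕ, (y (n + 1)).1 ∈ S (y n).1 := fun n => hnxt1 (y n) n
  have hy2 : ∀ n : ℕ, ∀ w ∈ S (y n).1, Φ₀ w ≤ Φ₀ (y (n + 1)).1 + (1 / 2 : ℝ) ^ n :=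
    fun n => hnxt2 (y n) n
  have hmn : ∀ n k : ℕ, (y (n + k)).1 ∈ S (y n).1 := by
    intro n k
    induction k with
    | zero => exact hrefl _ (y n).2
    | succ k ih => exact htrans _ _ _ ih (hy1 (n + k))
  -- Cauchy
  have hmono : Monotone (fun n : ℕ => Φ₀ (y n).1) := by
    apply monotone_nat_of_le_succ
    intro n
    have h := (hy1 n).2
    have h' : 0 ≤ ε * ‖(y (n + 1)).1 - (y n).1‖ := by positivity
    linarith
  have hbddr : BddAbove (Set.range (fun n : ℕ => Φ₀ (y n).1)) := by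
    refine ⟨‖Φ₀‖, ?_⟩
    rintro _ ⟨n, rfl⟩
    exact hbd _ (y n).2
  have hlimΦ := tendsto_atTop_ciSup hmono hbddr
  have hcauΦ : CauchySeq (fun n : ℕ => Φ₀ (y n).1) := hlimΦ.cauchySeq
  have hcau : CauchySeq (fun n : ℕ => (y n).1) := by
    rw [Metric.cauchySeq_iff'] at hcauΦ ⊢
    intro δ hδ
    obtain ⟨N, hN⟩ := hcauΦ (ε * δ) (by positivity)
    refine ⟨N, fun n hn => ?_⟩
    have h1 := hN n hn
    obtain ⟨k, rfl⟩ := Nat.exists_eq_add_of_le hn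
    have h2 := (hmn N k).2
    rw [Real.dist_eq] at h1
    rw [dist_eq_norm]
    have h3 := le_abs_self (Φ₀ (y (N + k)).1 - Φ₀ (y N).1)
    have h4 : ε * ‖(y (N + k)).1 - (y N).1‖ < ε * δ := by linarith
    exact lt_of_mul_lt_mul_left h4 hε.le
  obtain ⟨y0, hy0⟩ := cauchySeq_tendsto_of_complete hcau
  have hy0B : ‖y0‖ ≤ 1 := by
    have := (continuous_norm.tendsto y0).comp hy0
    exact le_of_tendsto' this (fun n : ℕ => (y n).2)
  have hy0S : ∀ n : ℕ, y0 ∈ S (y n).1 := by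
    intro n
    refine ⟨hy0B, ?_⟩
    have hsh : Filter.Tendsto (fun k : ℕ => (y (n + k)).1) Filter.atTop (nhds y0) := by
      have := (Filter.tendsto_add_atTop_iff_nat (f := fun n => (y n).1) n).2 hy0
      simpa [add_comm] using this
    have h1 : Filter.Tendsto (fun k => ε * ‖(y (n + k)).1 - (y n).1‖) Filter.atTop
        (nhds (ε * ‖y0 - (y n).1‖)) := by
      exact ((hsh.sub_const _).norm).const_mul _
    have h2 : Filter.Tendsto (fun k => Φ₀ (y (n + k)).1 - Φ₀ (y n).1) Filter.atTop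
        (nhds (Φ₀ y0 - Φ₀ (y n).1)) := by
      exact ((Φ₀.continuous.tendsto y0).comp hsh).sub_const _
    exact le_of_tendsto_of_tendsto' h1 h2 (fun k => (hmn n k).2)
  have hmax : ∀ z : W, ‖z‖ ≤ 1 → Φ₀ z - Φ₀ y0 ≤ ε * ‖z - y0‖ := by
    intro z hz
    by_contra hcon
    push Not at hcon
    have hzS : z ∈ S y0 := ⟨hz, hcon.le⟩
    have h1 : ∀ n, Φ₀ z ≤ Φ₀ (y (n + 1)).1 + (1 / 2 : ℝ) ^ n := fun n =>
      hy2 n z (htrans _ _ _ (hy0S n) hzS)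
    have h2 : Filter.Tendsto (fun n : ℕ => Φ₀ (y (n + 1)).1 + (1 / 2 : ℝ) ^ n) Filter.atTop
        (nhds (Φ₀ y0 + 0)) := by
      refine Filter.Tendsto.add ?_ (tendsto_pow_atTop_nhds_zero_of_lt_one (by norm_num) (by norm_num))
      exact (Φ₀.continuous.tendsto y0).comp ((Filter.tendsto_add_atTop_iff_nat 1).2 hy0)
    have h3 : Φ₀ z ≤ Φ₀ y0 + 0 := ge_of_tendsto' h2 h1
    have h4 : 0 ≤ ε * ‖z - y0‖ := by positivity
    linarith
  -- Hahn-Banach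
  let A : Set (W × ℝ) := {p | ε * ‖p.1‖ < p.2}
  let D : Set (W × ℝ) := {p | ‖p.1 + y0‖ ≤ 1 ∧ p.2 ≤ Φ₀ p.1}
  have hAopen : IsOpen A := by
    apply isOpen_lt
    · fun_prop
    · fun_prop
  have hAconv : Convex ℝ A := by
    rintro ⟨v, s⟩ hv ⟨w, t⟩ hw a b ha hb hab
    simp only [A, Set.mem_ofPred_eq] at hv hw ⊢
    simp only [Prod.smul_mk, Prod.mk_add_mk, smul_eq_mul]
    have h1 : ‖a • v + b • w‖ ≤ a * ‖v‖ + b * ‖w‖ := by
      refine (norm_add_le _ _).trans ?_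
      rw [norm_smul, norm_smul, Real.norm_of_nonneg ha, Real.norm_of_nonneg hb]
    have h2 : ε * ‖a • v + b • w‖ ≤ ε * (a * ‖v‖ + b * ‖w‖) :=
      mul_le_mul_of_nonneg_left h1 hε.le
    rcases ha.eq_or_lt with h | h
    · subst h
      have hb1 : b = 1 := by linarith
      subst hb1
      simp only [zero_mul, one_mul, zero_add] at h2 ⊢
      linarith
    · have h3 : a * (ε * ‖v‖) < a * s := mul_lt_mul_of_pos_left hv h
      have h4 : b * (ε * ‖w‖) ≤ b * t := mul_le_mul_of_nonneg_left hw.le hb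
      nlinarith
  have hDconv : Convex ℝ D := by
    rintro ⟨v, s⟩ hv ⟨w, t⟩ hw a b ha hb hab
    simp only [D, Set.mem_ofPred_eq] at hv hw ⊢
    simp only [Prod.smul_mk, Prod.mk_add_mk, smul_eq_mul]
    constructor
    · have h1 : a • v + b • w + y0 = a • (v + y0) + b • (w + y0) := by
        have : y0 = (a + b) • y0 := by rw [hab, one_smul]
        conv_lhs => rw [this]
        rw [add_smul, smul_add, smul_add]; abel
      rw [h1]
      refine (norm_add_le _ _).trans ?_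
      rw [norm_smul, norm_smul, Real.norm_of_nonneg ha, Real.norm_of_nonneg hb]
      have h3 := mul_le_mul_of_nonneg_left hv.1 ha
      have h4 := mul_le_mul_of_nonneg_left hw.1 hb
      linarith
    · rw [map_add, map_smul, map_smul, smul_eq_mul, smul_eq_mul]
      have h3 := mul_le_mul_of_nonneg_left hv.2 ha
      have h4 := mul_le_mul_of_nonneg_left hw.2 hb
      linarith
  have hdisj : Disjoint A D := by
    rw [Set.disjoint_left]
    rintro ⟨v, t⟩ h1 ⟨h2, h3⟩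
    simp only [A, Set.mem_ofPred_eq] at h1
    simp only at h2 h3
    have h4 := hmax (v + y0) h2
    rw [map_add, add_sub_cancel_right, add_sub_cancel_right] at h4
    linarith
  obtain ⟨φ, u, hφA, hφD⟩ := geometric_hahn_banach_open hAconv hAopen hDconv hdisj
  let ψ : W →L[ℝ] ℝ := φ.comp (ContinuousLinearMap.inl ℝ W ℝ)
  set c : ℝ := φ (0, 1) with hc
  have hφ : ∀ v t, φ (v, t) = ψ v + c * t := by
    intro v t
    have : ((v, t) : W × ℝ) = (v, 0) + t • (0, 1) := by simp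
    rw [this, map_add, map_smul, smul_eq_mul, mul_comm]
    rfl
  have hu0 : u ≤ 0 := by
    have := hφD (0, 0) (by simp [D, hy0B])
    rw [hφ, map_zero, mul_zero, add_zero] at this
    exact this
  have hcneg : c < 0 := by
    have := hφA (0, 1) (by simp [A])
    linarith
  have hψA : ∀ v, ψ v ≤ (-c) * (ε * ‖v‖) := by
    intro v
    refine le_of_forall_pos_le_add (fun δ hδ => ?_)
    have h1 := hφA (v, ε * ‖v‖ + δ / (-c)) (by
      simp only [A, Set.mem_ofPred_eq]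
      have : 0 < δ / (-c) := div_pos hδ (by linarith)
      linarith)
    rw [hφ] at h1
    have h2 : c * (δ / (-c)) = -δ := by
      rw [div_neg, mul_neg, mul_div_cancel₀ _ hcneg.ne]
    have h3 : ψ v + c * (ε * ‖v‖) + c * (δ / (-c)) < 0 := by nlinarith
    rw [h2] at h3
    linarith
  have hu0' : 0 ≤ u := by
    by_contra hcon
    push Not at hcon
    have hpos : 0 < u / c := div_pos_of_neg_of_neg hcon hcneg
    have h1 := hφA (0, u / c) (by simpa [A] using hpos)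
    rw [hφ, map_zero, mul_div_cancel₀ _ hcneg.ne] at h1
    linarith
  have hψD : ∀ v, ‖v + y0‖ ≤ 1 → (-c) * Φ₀ v ≤ ψ v := by
    intro v hv
    have h1 := hφD (v, Φ₀ v) ⟨hv, le_refl _⟩
    rw [hφ] at h1
    linarith
  let Ψ : W →L[ℝ] ℝ := (-c)⁻¹ • ψ
  have hc' : 0 < -c := by linarith
  have hΨ1 : ∀ v, Ψ v ≤ ε * ‖v‖ := by
    intro v
    have := hψA v
    simp only [Ψ, smul_apply, smul_eq_mul]
    rw [inv_mul_le_iff₀ hc']
    exact this
  have hΨ2 : ∀ v, ‖v + y0‖ ≤ 1 → Φ₀ v ≤ Ψ v := by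
    intro v hv
    have := hψD v hv
    simp only [Ψ, smul_apply, smul_eq_mul]
    rw [le_inv_mul_iff₀ hc']
    exact this
  have hΨn : ‖Ψ‖ ≤ ε := by
    refine ContinuousLinearMap.opNorm_le_bound _ hε.le (fun v => ?_)
    rw [Real.norm_eq_abs, abs_le]
    constructor
    · have := hΨ1 (-v)
      rw [map_neg, norm_neg] at this
      linarith
    · exact hΨ1 v
  refine ⟨Φ₀ - Ψ, ?_, y0, hy0B, ?_, (hy0S 0).2⟩
  · rw [sub_sub_cancel_left, norm_neg]; exact hΨn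
  · have hle : ∀ z : W, ‖z‖ ≤ 1 → (Φ₀ - Ψ) z ≤ (Φ₀ - Ψ) y0 := by
      intro z hz
      have h1 := hΨ2 (z - y0) (by simpa using hz)
      rw [map_sub, map_sub] at h1
      simp only [sub_apply]
      linarith
    apply le_antisymm
    · have h1 := (Φ₀ - Ψ).le_opNorm y0
      have h2 : ‖Φ₀ - Ψ‖ * ‖y0‖ ≤ ‖Φ₀ - Ψ‖ * 1 := mul_le_mul_of_nonneg_left hy0B (norm_nonneg _)
      exact (le_abs_self _).trans (h1.trans (by simpa using h2))
    · have hnn : 0 ≤ (Φ₀ - Ψ) y0 := by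
        have := hle 0 (by simp)
        simpa using this
      refine ContinuousLinearMap.opNorm_le_bound _ hnn (fun v => ?_)
      by_cases hv : v = 0
      · subst hv; simp
      · have hvn : 0 < ‖v‖ := norm_pos_iff.2 hv
        have h1 : ‖(‖v‖⁻¹ • v)‖ ≤ 1 := by
          rw [norm_smul, norm_inv, norm_norm, inv_mul_cancel₀ hvn.ne']
        have h2 := hle _ h1
        have h3 := hle (-(‖v‖⁻¹ • v)) (by rw [norm_neg]; exact h1)
        rw [map_neg] at h3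
        rw [map_smul, smul_eq_mul] at h2 h3
        rw [Real.norm_eq_abs, abs_le]
        have e1 : (Φ₀ - Ψ) v = ‖v‖ * (‖v‖⁻¹ * (Φ₀ - Ψ) v) := by
          rw [← mul_assoc, mul_inv_cancel₀ hvn.ne', one_mul]
        constructor
        · rw [e1]; nlinarith
        · rw [e1]; nlinarith


end PkgBP

open PkgBP in
theorem BP : BPStm.{u} := by
  intro X _ _ _ f x ρ hf hx hρ hρ1 hfx
  obtain ⟨Φ, hΦ, y, hy, hΦy, hyx⟩ := BP_core f ρ hρ x hx
  have hfy : f y ≤ 1 := by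
    have h1 := f.le_opNorm y
    rw [hf, one_mul] at h1
    exact (le_abs_self _).trans (h1.trans hy)
  have hyx' : ‖y - x‖ ≤ ρ := by
    have h1 : ρ * ‖y - x‖ ≤ ρ * ρ := by nlinarith
    exact le_of_mul_le_mul_left h1 hρ
  have hdiff : |‖Φ‖ - 1| ≤ ρ := by
    have h1 := abs_norm_sub_norm_le Φ f
    rw [hf] at h1
    exact h1.trans hΦ
  have hΦpos : 0 < ‖Φ‖ := by
    rw [abs_le] at hdiff
    linarith
  have hy1 : ‖y‖ = 1 := by
    apply le_antisymm hy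
    have h1 := Φ.le_opNorm y
    have h2 : ‖Φ‖ ≤ ‖Φ‖ * ‖y‖ := by
      calc ‖Φ‖ = Φ y := hΦy.symm
        _ ≤ |Φ y| := le_abs_self _
        _ ≤ ‖Φ‖ * ‖y‖ := h1
    have h3 : ‖Φ‖ * 1 ≤ ‖Φ‖ * ‖y‖ := by rw [mul_one]; exact h2
    exact le_of_mul_le_mul_left h3 hΦpos
  refine ⟨y, ‖Φ‖⁻¹ • Φ, hy1, ?_, ?_, hyx', ?_⟩
  · rw [norm_smul, norm_inv, norm_norm, inv_mul_cancel₀ hΦpos.ne']
  · show ‖Φ‖⁻¹ * Φ y = 1
    rw [hΦy, inv_mul_cancel₀ hΦpos.ne']
  · have h1 : ‖Φ‖⁻¹ • Φ - f = (‖Φ‖⁻¹ • Φ - Φ) + (Φ - f) := by abel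
    have h2 : ‖‖Φ‖⁻¹ • Φ - Φ‖ ≤ ρ := by
      have h3 : ‖Φ‖⁻¹ • Φ - Φ = (‖Φ‖⁻¹ - 1) • Φ := by
        ext v
        show ‖Φ‖⁻¹ * Φ v - Φ v = (‖Φ‖⁻¹ - 1) * Φ v
        ring
      rw [h3, norm_smul, Real.norm_eq_abs]
      have h4 : |‖Φ‖⁻¹ - 1| * ‖Φ‖ = |1 - ‖Φ‖| := by
        conv_lhs => rw [← abs_of_pos hΦpos, ← abs_mul, abs_of_pos hΦpos]
        congr 1
        rw [sub_mul, inv_mul_cancel₀ hΦpos.ne', one_mul]
      rw [h4, abs_sub_comm]
      exact hdiff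
    rw [h1]
    calc _ ≤ ‖‖Φ‖⁻¹ • Φ - Φ‖ + ‖Φ - f‖ := norm_add_le _ _
      _ ≤ ρ + ρ := add_le_add h2 hΦ
      _ = 2 * ρ := by ring

end Pool.T2H96.DM
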