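import Pool.Agent.T2H96.DM.Defs

set_option autoImplicit false

/-! Package PA of project DM. -/

namespace Pool.T2H96.DM

universe u

namespace PkgPA

open Complex

variable {X : Type u} [NormedAddCommGroup X] [NormedSpace ℝ X]

theorem T_cont (T : ℂ →ₗ[ℝ] X) : Continuous T := T.continuous_of_finiteDimensional

/-- the functional `p ∘ T` in complex notation -/
noncomputable def bb (T : ℂ →ₗ[ℝ] X) (p : X →L[ℝ] ℝ) : ℂ := ⟨p (T 1), p (T I)⟩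

theorem pT (T : ℂ →ₗ[ℝ] X) (p : X →L[ℝ] ℝ) (z : ℂ) : p (T z) = z.re * (bb T p).re + z.im * (bb T p).im := by
  have h1 : z = z.re • (1 : ℂ) + z.im • I := by
    apply Complex.ext <;> simp
  conv_lhs => rw [h1]
  rw [map_add, map_smul, map_smul, map_add, map_smul, map_smul, smul_eq_mul, smul_eq_mul]
  rfl

theorem sq_norm' (z : ℂ) : ‖z‖ ^ 2 = z.re * z.re + z.im * z.im := by
  rw [Complex.sq_norm, Complex.normSq_apply]

theorem bb_le {T : ℂ →ₗ[ℝ] X} {δ : ℝ} (hT : IsPlane δ T) (hδ : 0 < δ) {p : X →L[ℝ] ℝ} (hp : ‖p‖ = 1) :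
    ‖bb T p‖ ≤ 1 + δ := by
  obtain ⟨b, hb⟩ : ∃ b : ℂ, b = bb T p := ⟨_, rfl⟩
  have h1 : p (T b) = ‖b‖ ^ 2 := by
    rw [pT, ← hb, sq_norm']
  have h2 : p (T b) ≤ (1 + δ) * ‖b‖ := by
    have h3 := p.le_opNorm (T b)
    rw [hp, one_mul] at h3
    exact (le_abs_self _).trans (h3.trans (hT b).2)
  rw [← hb]
  by_contra hcon
  push Not at hcon
  have h4 : 0 < ‖b‖ := by linarith
  nlinarith

theorem near {T : ℂ →ₗ[ℝ] X} {δ : ℝ} (hT : IsPlane δ T) (hδ : 0 < δ) (hδ1 : δ ≤ 1) {p : X →L[ℝ] ℝ} (hp : ‖p‖ = 1)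
    {z : ℂ} (hz : ‖z‖ ≤ 1) (hpz : p (T z) = 1) : ‖bb T p - z‖ ≤ Real.sqrt (3 * δ) := by
  apply Real.le_sqrt_of_sq_le
  have h1 := bb_le hT hδ hp
  rw [pT] at hpz
  have h2 : ‖bb T p - z‖ ^ 2 = ‖bb T p‖ ^ 2 - 2 + ‖z‖ ^ 2 := by
    rw [sq_norm', sq_norm', sq_norm', Complex.sub_re, Complex.sub_im]
    linarith
  have h3 : ‖bb T p‖ ^ 2 ≤ (1 + δ) ^ 2 := by gcongr
  have h4 : ‖z‖ ^ 2 ≤ 1 := by
    calc ‖z‖ ^ 2 ≤ 1 ^ 2 := by gcongr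
      _ = 1 := by norm_num
  rw [h2]
  nlinarith

theorem re_mul_le (w e : ℂ) : -(‖w‖ * ‖e‖) ≤ w.re * e.re + w.im * e.im := by
  have h1 : (w.re * e.re + w.im * e.im) ^ 2 ≤ (‖w‖ * ‖e‖) ^ 2 := by
    rw [mul_pow, sq_norm', sq_norm']
    nlinarith [sq_nonneg (w.re * e.im - w.im * e.re)]
  have h2 := abs_le_of_sq_le_sq h1 (by positivity)
  exact (abs_le.1 h2).1

end PkgPA

open PkgPA in
theorem PA : PAStm.{u} := by
  intro X _ _ T δ ε hδ hδ1 hT hε hε2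
  have hN : ∀ z : ℂ, z ≠ 0 → 0 < ‖T z‖ := fun z hz => lt_of_lt_of_le (norm_pos_iff.2 hz) (hT z).1
  have hcont : Continuous fun z : ℂ => ‖T z‖ := (T_cont T).norm
  -- the second point
  obtain ⟨e, he⟩ : ∃ e : ℝ → ℂ, e = fun θ : ℝ => Complex.exp ((θ : ℂ) * Complex.I) := ⟨_, rfl⟩
  have hec : Continuous e := by
    rw [he]
    fun_prop
  have he0 : ∀ θ, e θ ≠ 0 := fun θ => by
    rw [he]
    exact Complex.exp_ne_zero _
  obtain ⟨z1, hz1⟩ : ∃ z1 : ℂ, z1 = ‖T 1‖⁻¹ • (1 : ℂ) := ⟨_, rfl⟩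
  obtain ⟨z2, hz2⟩ : ∃ z2 : ℝ → ℂ, z2 = fun θ => ‖T (e θ)‖⁻¹ • e θ := ⟨_, rfl⟩
  have hz2c : Continuous z2 := by
    rw [hz2]
    exact ((hcont.comp hec).inv₀ fun θ => (hN _ (he0 θ)).ne').smul hec
  have hnorm : ∀ z : ℂ, z ≠ 0 → ‖T (‖T z‖⁻¹ • z)‖ = 1 := by
    intro z hz
    rw [map_smul, norm_smul, norm_inv, norm_norm, inv_mul_cancel₀ (hN z hz).ne']
  have hFc : Continuous fun θ => ‖T (z1 - z2 θ)‖ := hcont.comp (continuous_const.sub hz2c)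
  have hF0 : ‖T (z1 - z2 0)‖ = 0 := by
    have : e 0 = 1 := by rw [he]; simp
    rw [hz1, hz2]
    simp only
    rw [this, sub_self, map_zero, norm_zero]
  have hFπ : ‖T (z1 - z2 Real.pi)‖ = 2 := by
    have h1 : e Real.pi = -1 := by rw [he]; simp
    rw [hz1, hz2]
    simp only
    rw [h1, map_neg, norm_neg, smul_neg, sub_neg_eq_add, map_add, ← two_smul ℝ, norm_smul, hnorm 1 one_ne_zero]
    norm_num
  obtain ⟨θ, _, hθ⟩ := intermediate_value_Icc (f := fun θ => ‖T (z1 - z2 θ)‖) Real.pi_pos.le hFc.continuousOn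
    (show ε ∈ Set.Icc _ _ from ⟨by
      show ‖T (z1 - z2 0)‖ ≤ ε
      rw [hF0]
      exact hε.le, by
      show ε ≤ ‖T (z1 - z2 Real.pi)‖
      rw [hFπ]
      exact hε2⟩)
  simp only at hθ
  obtain ⟨w2, hw2⟩ : ∃ w2 : ℂ, w2 = z2 θ := ⟨_, rfl⟩
  rw [← hw2] at hθ
  have hx1 : ‖T z1‖ = 1 := by rw [hz1]; exact hnorm 1 one_ne_zero
  have hx2 : ‖T w2‖ = 1 := by rw [hw2, hz2]; exact hnorm _ (he0 θ)
  have hn1 : ‖z1‖ ≤ 1 := (hT z1).1.trans hx1.le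
  have hn2 : ‖w2‖ ≤ 1 := (hT w2).1.trans hx2.le
  obtain ⟨p1, hp1, hp1x⟩ := exists_dual_vector ℝ (T z1) (by rw [hx1]; norm_num)
  obtain ⟨p2, hp2, hp2x⟩ := exists_dual_vector ℝ (T w2) (by rw [hx2]; norm_num)
  have hp1x' : p1 (T z1) = 1 := by rw [hp1x, hx1]; norm_num
  have hp2x' : p2 (T w2) = 1 := by rw [hp2x, hx2]; norm_num
  refine ⟨T z1, T w2, p1, p2, hx1, hx2, by rw [← map_sub]; exact hθ, hp1, hp2, hp1x', hp2x', ?_⟩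
  have hb1 := near hT hδ hδ1 hp1 hn1 hp1x'
  have hb2 := near hT hδ hδ1 hp2 hn2 hp2x'
  obtain ⟨w, hw⟩ : ∃ w : ℂ, w = z1 - w2 := ⟨_, rfl⟩
  obtain ⟨r, hr⟩ : ∃ r : ℂ, r = (bb T p1 - z1) - (bb T p2 - w2) := ⟨_, rfl⟩
  have hrn : ‖r‖ ≤ 2 * Real.sqrt (3 * δ) := by
    rw [hr]
    refine (norm_sub_le _ _).trans ?_
    linarith
  rw [← hw] at hθ
  have h1 : (p1 - p2) (T w) ≤ ‖p1 - p2‖ * ε := by
    have h2 := (p1 - p2).le_opNorm (T w)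
    rw [hθ] at h2
    exact (le_abs_self _).trans h2
  have h2 : (p1 - p2) (T w) = ‖w‖ ^ 2 + (w.re * r.re + w.im * r.im) := by
    show p1 (T w) - p2 (T w) = _
    rw [pT, pT, sq_norm', hr, hw]
    simp only [Complex.sub_re, Complex.sub_im]
    ring
  have h3 := re_mul_le w r
  have hw1 : ‖w‖ ≤ ε := (hT w).1.trans hθ.le
  have hw2' : ε / (1 + δ) ≤ ‖w‖ := by
    rw [div_le_iff₀ (by linarith), mul_comm, ← hθ]
    exact (hT w).2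
  have hs : 0 ≤ Real.sqrt (3 * δ) := Real.sqrt_nonneg _
  have h4 : ‖w‖ * ‖r‖ ≤ ε * (2 * Real.sqrt (3 * δ)) := by gcongr
  have h5 : (ε / (1 + δ)) ^ 2 ≤ ‖w‖ ^ 2 := by
    apply pow_le_pow_left₀ _ hw2'
    positivity
  have h6 : ε * (ε / (1 + δ) ^ 2 - 2 * Real.sqrt (3 * δ)) ≤ ε * ‖p1 - p2‖ := by
    have h7 : ε * (ε / (1 + δ) ^ 2) = (ε / (1 + δ)) ^ 2 := by
      rw [div_pow]
      ring
    rw [mul_sub, h7]
    linarith
  exact le_of_mul_le_mul_left h6 hε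

end Pool.T2H96.DM
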