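import Pool.Agent.T2H96.DM.Defs

/-!
# Package PB of project DM
-/

set_option autoImplicit false

open Set

namespace Pool.T2H96.DM

universe u

namespace PkgPB

variable {X : Type u} [NormedAddCommGroup X] [NormedSpace ℝ X]

/-- the normalised functional -/
noncomputable def P (T : ℂ →ₗ[ℝ] (X →L[ℝ] ℝ)) (z : ℂ) : X →L[ℝ] ℝ := ‖T z‖⁻¹ • T z

/-- the coordinates of a vector -/
noncomputable def a (T : ℂ →ₗ[ℝ] (X →L[ℝ] ℝ)) (x : X) : ℂ := ⟨T 1 x, T Complex.I x⟩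

theorem T_apply (T : ℂ →ₗ[ℝ] (X →L[ℝ] ℝ)) (z : ℂ) (x : X) :
    T z x = z.re * (a T x).re + z.im * (a T x).im := by
  have hz : z = z.re • (1 : ℂ) + z.im • Complex.I := by
    apply Complex.ext <;> simp
  have h : T z = z.re • T 1 + z.im • T Complex.I := by
    conv_lhs => rw [hz]
    rw [map_add, map_smul, map_smul]
  rw [h]
  simp [a]

theorem norm_P {T : ℂ →ₗ[ℝ] (X →L[ℝ] ℝ)} {δ : ℝ} (hT : IsPlane δ T) {z : ℂ} (hz : ‖z‖ = 1) :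
    ‖P T z‖ = 1 := by
  have h := (hT z).1
  rw [hz] at h
  unfold P
  rw [norm_smul, norm_inv, norm_norm]
  exact inv_mul_cancel₀ (by linarith : (0 : ℝ) < ‖T z‖).ne'

theorem norm_P_sub {T : ℂ →ₗ[ℝ] (X →L[ℝ] ℝ)} {δ : ℝ} (hT : IsPlane δ T) {z : ℂ} (hz : ‖z‖ = 1) :
    ‖P T z - T z‖ ≤ δ := by
  obtain ⟨h1, h2⟩ := hT z
  rw [hz] at h1 h2
  have h0 : (0 : ℝ) < ‖T z‖ := by linarith
  have h : P T z - T z = (‖T z‖⁻¹ - 1) • T z := by
    unfold P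
    ext x
    simp only [_root_.sub_apply, _root_.smul_apply, smul_eq_mul]
    ring
  rw [h, norm_smul]
  have h3 : ‖‖T z‖⁻¹ - 1‖ = 1 - ‖T z‖⁻¹ := by
    rw [Real.norm_eq_abs, abs_sub_comm, abs_of_nonneg]
    have := inv_le_one_of_one_le₀ h1
    linarith
  rw [h3, sub_mul, inv_mul_cancel₀ h0.ne']
  linarith

theorem P_sub_P {T : ℂ →ₗ[ℝ] (X →L[ℝ] ℝ)} {δ : ℝ} (hT : IsPlane δ T) {z w : ℂ} (hz : ‖z‖ = 1)
    (hw : ‖w‖ = 1) : ‖P T z - P T w‖ ≤ (1 + δ) * ‖z - w‖ + 2 * δ := by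
  have h1 := norm_P_sub hT hz
  have h2 := norm_P_sub hT hw
  have h3 := (hT (z - w)).2
  rw [map_sub] at h3
  have h4 : P T z - P T w = (P T z - T z) + (T z - T w) - (P T w - T w) := by abel
  rw [h4]
  have h5 := norm_sub_le ((P T z - T z) + (T z - T w)) (P T w - T w)
  have h6 := norm_add_le (P T z - T z) (T z - T w)
  linarith

theorem norm_a {T : ℂ →ₗ[ℝ] (X →L[ℝ] ℝ)} {δ : ℝ} (hT : IsPlane δ T) (x : X) :
    ‖a T x‖ ≤ (1 + δ) * ‖x‖ := by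
  have h1 : ‖a T x‖ ^ 2 = T (a T x) x := by
    rw [T_apply, Complex.sq_norm, Complex.normSq_apply]
  have h2 : T (a T x) x ≤ ‖T (a T x)‖ * ‖x‖ := (le_abs_self _).trans ((T (a T x)).le_opNorm x)
  have h3 : ‖T (a T x)‖ * ‖x‖ ≤ (1 + δ) * ‖a T x‖ * ‖x‖ :=
    mul_le_mul_of_nonneg_right (hT _).2 (norm_nonneg x)
  by_cases h0 : ‖a T x‖ = 0
  · have h4 := (hT 1)
    rw [norm_one] at h4
    have h5 : (0 : ℝ) ≤ 1 + δ := by linarith [h4.1, h4.2]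
    rw [h0]
    exact mul_nonneg h5 (norm_nonneg x)
  · have hp : 0 < ‖a T x‖ := lt_of_le_of_ne (norm_nonneg _) (Ne.symm h0)
    have h6 : ‖a T x‖ * ‖a T x‖ ≤ ‖a T x‖ * ((1 + δ) * ‖x‖) := by
      nlinarith
    exact le_of_mul_le_mul_left h6 hp

theorem a_sub (T : ℂ →ₗ[ℝ] (X →L[ℝ] ℝ)) (x y : X) : a T x - a T y = a T (x - y) := by
  apply Complex.ext <;> simp [a]

theorem near {T : ℂ →ₗ[ℝ] (X →L[ℝ] ℝ)} {ρ : ℝ} (hρ : 0 < ρ) (hρ1 : ρ ≤ 1 / 10)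
    (hT : IsPlane (ρ ^ 2) T) {z : ℂ} (hz : ‖z‖ = 1) {x : X} (hx : ‖x‖ ≤ 1)
    (h : 1 - ρ ^ 2 ≤ P T z x) : ‖a T x - z‖ ≤ 3 * ρ := by
  have h1 := (hT z).1
  rw [hz] at h1
  have h2 : T z x = ‖T z‖ * P T z x := by
    unfold P
    rw [_root_.smul_apply, smul_eq_mul, ← mul_assoc,
      mul_inv_cancel₀ (by linarith : (0 : ℝ) < ‖T z‖).ne', one_mul]
  have hρ2 : ρ ^ 2 ≤ 1 / 100 := by nlinarith
  have h3 : 1 - ρ ^ 2 ≤ T z x := by
    rw [h2]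
    nlinarith
  have h4 := norm_a hT x
  have h5 : ‖a T x‖ ≤ 1 + ρ ^ 2 := by
    refine h4.trans ?_
    nlinarith [sq_nonneg ρ]
  have h6 : ‖a T x - z‖ ^ 2 = ‖a T x‖ ^ 2 - 2 * T z x + ‖z‖ ^ 2 := by
    rw [T_apply, Complex.sq_norm, Complex.sq_norm, Complex.sq_norm, Complex.normSq_apply,
      Complex.normSq_apply, Complex.normSq_apply, Complex.sub_re, Complex.sub_im]
    ring
  have h7 : ‖a T x‖ ^ 2 ≤ (1 + ρ ^ 2) ^ 2 := pow_le_pow_left₀ (norm_nonneg _) h5 2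
  apply le_of_sq_le_sq _ (by linarith)
  rw [h6, hz]
  nlinarith [sq_nonneg ρ]

theorem exists_slice (f : X →L[ℝ] ℝ) (hf : ‖f‖ = 1) {c : ℝ} (hc : 0 < c) :
    ∃ y : X, ‖y‖ ≤ 1 ∧ 1 - c < f y := by
  obtain ⟨x, hx, hfx⟩ := f.exists_lt_apply_of_lt_opNorm (r := 1 - c) (by rw [hf]; linarith)
  rw [Real.norm_eq_abs] at hfx
  rcases lt_abs.1 hfx with h | h
  · exact ⟨x, hx.le, h⟩
  · exact ⟨-x, by rw [norm_neg]; exact hx.le, by rw [map_neg]; exact h⟩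

/-- the unit circle -/
noncomputable def e (θ : ℝ) : ℂ := Complex.exp (θ * Complex.I)

theorem norm_e (θ : ℝ) : ‖e θ‖ = 1 := Complex.norm_exp_ofReal_mul_I θ

theorem cont_e : Continuous e := by
  unfold e
  fun_prop

theorem cont_P {T : ℂ →ₗ[ℝ] (X →L[ℝ] ℝ)} {δ : ℝ} (hT : IsPlane δ T) :
    Continuous fun θ : ℝ => P T (e θ) := by
  have hTc : Continuous fun θ : ℝ => T (e θ) :=
    (LinearMap.continuous_of_finiteDimensional T).comp cont_e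
  unfold P
  have hinv : Continuous fun θ : ℝ => ‖T (e θ)‖⁻¹ := by
    apply Continuous.inv₀ hTc.norm
    intro θ
    have h := (hT (e θ)).1
    rw [norm_e] at h
    linarith
  exact hinv.smul hTc

theorem find {T : ℂ →ₗ[ℝ] (X →L[ℝ] ℝ)} {δ : ℝ} (hT : IsPlane δ T) {c ε : ℝ} (hc : 0 < c) (x₁ y₀ : X)
    (hy : ‖y₀‖ ≤ 1) (hy1 : 1 - c < P T (e 0) y₀) (h0 : ‖y₀ - x₁‖ < ε) (h1 : ε < ‖-y₀ - x₁‖) :
    ∃ (θ : ℝ) (w : X), ‖w‖ ≤ 1 ∧ 1 - c < P T (e θ) w ∧ ‖w - x₁‖ = ε := by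
  by_contra hcon
  push Not at hcon
  set U : Set ℝ := ⋃ y ∈ {y : X | ‖y‖ ≤ 1 ∧ ‖y - x₁‖ < ε}, {θ : ℝ | 1 - c < P T (e θ) y} with hU
  set V : Set ℝ := ⋃ y ∈ {y : X | ‖y‖ ≤ 1 ∧ ε < ‖y - x₁‖}, {θ : ℝ | 1 - c < P T (e θ) y} with hV
  have hopen : ∀ y : X, IsOpen {θ : ℝ | 1 - c < P T (e θ) y} := fun y =>
    isOpen_lt continuous_const ((cont_P hT).clm_apply continuous_const)
  have hUo : IsOpen U := isOpen_biUnion fun y _ => hopen y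
  have hVo : IsOpen V := isOpen_biUnion fun y _ => hopen y
  have hcov : Icc (0 : ℝ) Real.pi ⊆ U ∪ V := by
    intro θ _
    obtain ⟨y, hy1, hy2⟩ := exists_slice (P T (e θ)) (norm_P hT (norm_e θ)) hc
    rcases lt_trichotomy ‖y - x₁‖ ε with h | h | h
    · left
      rw [hU, mem_iUnion₂]
      exact ⟨y, ⟨hy1, h⟩, hy2⟩
    · exact absurd h (hcon θ y hy1 hy2)
    · right
      rw [hV, mem_iUnion₂]
      exact ⟨y, ⟨hy1, h⟩, hy2⟩
  have hU0 : (Icc (0 : ℝ) Real.pi ∩ U).Nonempty := by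
    refine ⟨0, ⟨le_refl 0, Real.pi_pos.le⟩, ?_⟩
    rw [hU, mem_iUnion₂]
    exact ⟨y₀, ⟨hy, h0⟩, hy1⟩
  have hepi : e Real.pi = -(e 0) := by
    unfold e
    rw [Complex.exp_pi_mul_I]
    simp
  have hPneg : P T (e Real.pi) = -(P T (e 0)) := by
    rw [hepi]
    unfold P
    rw [map_neg, norm_neg, smul_neg]
  have hV0 : (Icc (0 : ℝ) Real.pi ∩ V).Nonempty := by
    refine ⟨Real.pi, ⟨Real.pi_pos.le, le_refl _⟩, ?_⟩
    rw [hV, mem_iUnion₂]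
    refine ⟨-y₀, ⟨by rw [norm_neg]; exact hy, h1⟩, ?_⟩
    rw [mem_ofPred_eq, hPneg, neg_apply, map_neg, neg_neg]
    exact hy1
  obtain ⟨θ, _, hθU, hθV⟩ := isPreconnected_Icc U V hUo hVo hcov hU0 hV0
  rw [hU, mem_iUnion₂] at hθU
  rw [hV, mem_iUnion₂] at hθV
  obtain ⟨y, ⟨hy1', hy2'⟩, hy3'⟩ := hθU
  obtain ⟨y', ⟨hz1, hz2⟩, hz3⟩ := hθV
  rw [mem_ofPred_eq] at hy3' hz3
  have hcont : ContinuousOn (fun s : ℝ => ‖(y + s • (y' - y)) - x₁‖) (Icc (0 : ℝ) 1) := by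
    apply Continuous.continuousOn
    fun_prop
  have himg := intermediate_value_Icc (zero_le_one' ℝ) hcont
  have hmem : ε ∈ Icc ‖(y + (0 : ℝ) • (y' - y)) - x₁‖ ‖(y + (1 : ℝ) • (y' - y)) - x₁‖ := by
    rw [zero_smul, one_smul, add_zero, add_sub_cancel]
    exact ⟨hy2'.le, hz2.le⟩
  obtain ⟨s, ⟨hs0, hs1⟩, hs⟩ := himg hmem
  simp only at hs
  refine hcon θ (y + s • (y' - y)) ?_ ?_ hs
  · have he : y + s • (y' - y) = (1 - s) • y + s • y' := by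
      rw [smul_sub, sub_smul, one_smul]
      abel
    rw [he]
    have h3 := norm_add_le ((1 - s) • y) (s • y')
    rw [norm_smul, norm_smul, Real.norm_of_nonneg hs0, Real.norm_of_nonneg (by linarith : (0 : ℝ) ≤ 1 - s)] at h3
    nlinarith
  · rw [map_add, map_smul, map_sub, smul_eq_mul]
    by_contra hcc
    push Not at hcc
    have k1 : (1 - s) * (1 - c) ≤ (1 - s) * P T (e θ) y :=
      mul_le_mul_of_nonneg_left hy3'.le (by linarith)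
    have k2 : s * (1 - c) ≤ s * P T (e θ) y' := mul_le_mul_of_nonneg_left hz3.le hs0
    have k3 : (1 - s) * (P T (e θ) y - (1 - c)) + s * (P T (e θ) y' - (1 - c)) ≤ 0 := by
      linarith
    rcases eq_or_lt_of_le hs0 with h0' | h0'
    · rw [← h0'] at k3
      linarith
    · have k4 : 0 < s * (P T (e θ) y' - (1 - c)) := mul_pos h0' (by linarith)
      have k5 : 0 ≤ (1 - s) * (P T (e θ) y - (1 - c)) := mul_nonneg (by linarith) (by linarith)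
      linarith

end PkgPB

open PkgPB in
theorem PB (h : BPStm.{u}) : PBStm.{u} := by
  intro X _ _ _ T ρ ε hρ hρ1 hT hε hε2
  have hρ2 : ρ ^ 2 ≤ ρ / 10 := by nlinarith
  have hρ0 : 0 < ρ ^ 2 := by positivity
  obtain ⟨y₀, hy, hy1⟩ := exists_slice (P T (e 0)) (norm_P hT (norm_e 0)) hρ0
  obtain ⟨x₁, p₁, hx₁, hp₁, hpx₁, hxy, hpp⟩ := h X (P T (e 0)) y₀ ρ (norm_P hT (norm_e 0)) hy hρ
    (by linarith) hy1.le
  have hA : ‖y₀ - x₁‖ < ε := by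
    rw [norm_sub_rev]
    linarith
  have hB : ε < ‖-y₀ - x₁‖ := by
    have h1 : P T (e 0) (y₀ + x₁) ≤ ‖-y₀ - x₁‖ := by
      have h2 := (P T (e 0)).le_opNorm (y₀ + x₁)
      rw [norm_P hT (norm_e 0), one_mul] at h2
      have h3 : ‖-y₀ - x₁‖ = ‖y₀ + x₁‖ := by
        rw [← norm_neg]
        congr 1
        abel
      rw [h3]
      exact (le_abs_self _).trans h2
    have h4 : P T (e 0) (y₀ - x₁) ≤ ρ := by
      have h2 := (P T (e 0)).le_opNorm (y₀ - x₁)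
      rw [norm_P hT (norm_e 0), one_mul, norm_sub_rev] at h2
      exact ((le_abs_self _).trans h2).trans hxy
    rw [map_add] at h1
    rw [map_sub] at h4
    linarith
  obtain ⟨θ, w, hw, hw1, hw2⟩ := find hT hρ0 x₁ y₀ hy hy1 hA hB
  obtain ⟨x₂, p₂, hx₂, hp₂, hpx₂, hxy2, hpp2⟩ := h X (P T (e θ)) w ρ (norm_P hT (norm_e θ)) hw hρ
    (by linarith) hw1.le
  refine ⟨x₁, x₂, p₁, p₂, hx₁, hx₂, ?_, hp₁, hp₂, hpx₁, hpx₂, ?_⟩
  · rw [← hw2, norm_sub_rev w x₁]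
    have h1 := abs_norm_sub_norm_le (x₁ - x₂) (x₁ - w)
    have h2 : (x₁ - x₂) - (x₁ - w) = -(x₂ - w) := by abel
    rw [h2, norm_neg] at h1
    linarith
  · have h1 := near hρ hρ1 hT (norm_e 0) hy hy1.le
    have h2 := near hρ hρ1 hT (norm_e θ) hw hw1.le
    have h3 : ‖a T y₀ - a T x₁‖ ≤ (1 + ρ ^ 2) * ρ := by
      rw [a_sub]
      refine (norm_a hT _).trans ?_
      rw [norm_sub_rev]
      exact mul_le_mul_of_nonneg_left hxy (by positivity)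
    have h4 : ‖a T x₁ - a T w‖ ≤ (1 + ρ ^ 2) * ε := by
      rw [a_sub]
      refine (norm_a hT _).trans ?_
      rw [norm_sub_rev, hw2]
    have h5 : ‖e 0 - e θ‖ ≤ 3 * ρ + (1 + ρ ^ 2) * ρ + (1 + ρ ^ 2) * ε + 3 * ρ := by
      have h6 : e 0 - e θ = (-(a T y₀ - e 0) + (a T y₀ - a T x₁)) + ((a T x₁ - a T w) + (a T w - e θ)) := by
        ring
      rw [h6]
      have h7 := norm_add_le (-(a T y₀ - e 0) + (a T y₀ - a T x₁)) ((a T x₁ - a T w) + (a T w - e θ))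
      have h8 := norm_add_le (-(a T y₀ - e 0)) (a T y₀ - a T x₁)
      have h9 := norm_add_le (a T x₁ - a T w) (a T w - e θ)
      rw [norm_neg] at h8
      linarith
    have h6 : ‖e 0 - e θ‖ ≤ ε + 8 * ρ := by nlinarith
    have h7 := P_sub_P hT (norm_e 0) (norm_e θ)
    have h8 : ‖P T (e 0) - P T (e θ)‖ ≤ ε + 20 * ρ := by nlinarith
    have h9 : p₁ - p₂ = (p₁ - P T (e 0)) + (P T (e 0) - P T (e θ)) - (p₂ - P T (e θ)) := by abel
    rw [h9]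
    have h10 := norm_sub_le ((p₁ - P T (e 0)) + (P T (e 0) - P T (e θ))) (p₂ - P T (e θ))
    have h11 := norm_add_le (p₁ - P T (e 0)) (P T (e 0) - P T (e θ))
    linarith

end Pool.T2H96.DM
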