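import Mathlib

set_option autoImplicit false

namespace Pool.T2H96.DM

universe u

/-- `T` embeds the Euclidean plane into `X` with distortion at most `1 + δ`. -/
def IsPlane {X : Type u} [NormedAddCommGroup X] [NormedSpace ℝ X] (δ : ℝ) (T : ℂ →ₗ[ℝ] X) : Prop :=
  ∀ z : ℂ, ‖z‖ ≤ ‖T z‖ ∧ ‖T z‖ ≤ (1 + δ) * ‖z‖

/-- package PL -/
def PLStm : Prop :=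
  ∀ (X : Type) [NormedAddCommGroup X] [NormedSpace ℝ X], ¬ FiniteDimensional ℝ X →
    ∀ δ : ℝ, 0 < δ → δ ≤ 1 → ∃ T : ℂ →ₗ[ℝ] X, IsPlane δ T

/-- package UN: PLStm → PLuStm.{u} -/
def PLuStm : Prop :=
  ∀ (X : Type u) [NormedAddCommGroup X] [NormedSpace ℝ X], ¬ FiniteDimensional ℝ X →
    ∀ δ : ℝ, 0 < δ → δ ≤ 1 → ∃ T : ℂ →ₗ[ℝ] X, IsPlane δ T

/-- package BP (Bishop-Phelps-Bollobas) -/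
def BPStm : Prop :=
  ∀ (X : Type u) [NormedAddCommGroup X] [NormedSpace ℝ X] [CompleteSpace X] (f : X →L[ℝ] ℝ) (x : X)
    (ρ : ℝ), ‖f‖ = 1 → ‖x‖ ≤ 1 → 0 < ρ → ρ < 1 → 1 - ρ ^ 2 ≤ f x →
    ∃ (y : X) (g : X →L[ℝ] ℝ), ‖y‖ = 1 ∧ ‖g‖ = 1 ∧ g y = 1 ∧ ‖y - x‖ ≤ ρ ∧ ‖g - f‖ ≤ 2 * ρ

/-- package PA -/
def PAStm : Prop :=
  ∀ (X : Type u) [NormedAddCommGroup X] [NormedSpace ℝ X] (T : ℂ →ₗ[ℝ] X) (δ ε : ℝ),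
    0 < δ → δ ≤ 1 → IsPlane δ T → 0 < ε → ε ≤ 2 →
    ∃ (x₁ x₂ : X) (p₁ p₂ : X →L[ℝ] ℝ), ‖x₁‖ = 1 ∧ ‖x₂‖ = 1 ∧ ‖x₁ - x₂‖ = ε ∧
      ‖p₁‖ = 1 ∧ ‖p₂‖ = 1 ∧ p₁ x₁ = 1 ∧ p₂ x₂ = 1 ∧
      ε / (1 + δ) ^ 2 - 2 * Real.sqrt (3 * δ) ≤ ‖p₁ - p₂‖

/-- package PB: BPStm.{u} → PBStm.{u} -/
def PBStm : Prop :=
  ∀ (X : Type u) [NormedAddCommGroup X] [NormedSpace ℝ X] [CompleteSpace X]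
    (T : ℂ →ₗ[ℝ] (X →L[ℝ] ℝ)) (ρ ε : ℝ),
    0 < ρ → ρ ≤ 1 / 10 → IsPlane (ρ ^ 2) T → 2 * ρ ≤ ε → ε ≤ 2 - 3 * ρ →
    ∃ (x₁ x₂ : X) (p₁ p₂ : X →L[ℝ] ℝ), ‖x₁‖ = 1 ∧ ‖x₂‖ = 1 ∧ |‖x₁ - x₂‖ - ε| ≤ 2 * ρ ∧
      ‖p₁‖ = 1 ∧ ‖p₂‖ = 1 ∧ p₁ x₁ = 1 ∧ p₂ x₂ = 1 ∧ ‖p₁ - p₂‖ ≤ ε + 26 * ρ

end Pool.T2H96.DM
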