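import Mathlib
import Pool.Agent.T2H96.DM.Defs

set_option autoImplicit false

namespace Pool.T2H96.DM.UC

universe u

variable {X : Type u} [NormedAddCommGroup X] [NormedSpace ℝ X]

/-- complex coordinate of a point, for a plane of functionals -/
noncomputable def coo (T : ℂ →ₗ[ℝ] (X →L[ℝ] ℝ)) (x : X) : ℂ := ⟨T 1 x, T Complex.I x⟩

theorem T_apply (T : ℂ →ₗ[ℝ] (X →L[ℝ] ℝ)) (z : ℂ) (x : X) :
    T z x = (z * (starRingEnd ℂ) (coo T x)).re := by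
  have h1 : z = z.re • (1 : ℂ) + z.im • Complex.I := by
    apply Complex.ext <;> simp
  conv_lhs => rw [h1]
  rw [map_add, map_smul, map_smul]
  simp only [add_apply, smul_apply, smul_eq_mul,
    Complex.mul_re, Complex.conj_re, Complex.conj_im, coo]
  ring

theorem coo_sub (T : ℂ →ₗ[ℝ] (X →L[ℝ] ℝ)) (x y : X) : coo T x - coo T y = coo T (x - y) := by
  unfold coo
  apply Complex.ext <;> simp

theorem norm_coo (T : ℂ →ₗ[ℝ] (X →L[ℝ] ℝ)) {δ : ℝ} (hT : IsPlane δ T) (hδ : 0 < δ) (x : X) :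
    ‖coo T x‖ ≤ (1 + δ) * ‖x‖ := by
  set a := coo T x with ha
  by_cases h0 : a = 0
  · rw [h0, norm_zero]; positivity
  have hpos : 0 < ‖a‖ := norm_pos_iff.2 h0
  have h1 : T a x = ‖a‖ ^ 2 := by
    rw [T_apply, ← ha, Complex.mul_conj, Complex.normSq_eq_norm_sq]
    norm_cast
  have h2 : T a x ≤ ‖T a‖ * ‖x‖ := (le_abs_self _).trans ((T a).le_opNorm x)
  have h3 : ‖T a‖ * ‖x‖ ≤ ((1 + δ) * ‖a‖) * ‖x‖ :=
    mul_le_mul_of_nonneg_right (hT a).2 (norm_nonneg _)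
  have h4 : ‖a‖ * ‖a‖ ≤ ‖a‖ * ((1 + δ) * ‖x‖) := by nlinarith
  exact le_of_mul_le_mul_left h4 hpos

theorem coo_near (T : ℂ →ₗ[ℝ] (X →L[ℝ] ℝ)) {δ : ℝ} (hT : IsPlane δ T) (hδ : 0 < δ) (hδ1 : δ ≤ 1)
    (z : ℂ) (hz : ‖z‖ = 1) (x : X) (hx : ‖x‖ ≤ 1) (h : 1 ≤ T z x) :
    ‖coo T x - z‖ ≤ Real.sqrt (3 * δ) := by
  apply Real.le_sqrt_of_sq_le
  have h1 : ‖coo T x‖ ≤ 1 + δ := (norm_coo T hT hδ x).trans (by nlinarith [norm_nonneg x])
  have h2 : ‖coo T x - z‖ ^ 2 = ‖coo T x‖ ^ 2 + ‖z‖ ^ 2 - 2 * (z * (starRingEnd ℂ) (coo T x)).re := by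
    rw [← Complex.normSq_eq_norm_sq, ← Complex.normSq_eq_norm_sq, ← Complex.normSq_eq_norm_sq]
    simp only [Complex.normSq_apply, Complex.sub_re, Complex.sub_im, Complex.mul_re, Complex.conj_re,
      Complex.conj_im]
    ring
  rw [h2, ← T_apply, hz]
  have h3 : ‖coo T x‖ ^ 2 ≤ (1 + δ) ^ 2 := by
    apply pow_le_pow_left₀ (norm_nonneg _) h1
  nlinarith

theorem uc_close [UniformConvexSpace X] {ρ : ℝ} (hρ : 0 < ρ) :
    ∃ τ : ℝ, 0 < τ ∧ ∀ (f : X →L[ℝ] ℝ) (x y : X), ‖f‖ = 1 → ‖x‖ ≤ 1 → ‖y‖ ≤ 1 →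
      1 - τ < f x → 1 - τ < f y → ‖x - y‖ < ρ := by
  obtain ⟨d, hd, h⟩ := exists_forall_closed_ball_dist_add_le_two_sub X hρ
  refine ⟨d / 2, by positivity, ?_⟩
  intro f x y hf hx hy h1 h2
  by_contra hcon
  push Not at hcon
  have h3 := h hx hy hcon
  have h4 : f (x + y) ≤ ‖f‖ * ‖x + y‖ := (le_abs_self _).trans (f.le_opNorm _)
  rw [map_add, hf, one_mul] at h4
  linarith

theorem exists_norming [CompleteSpace X] [UniformConvexSpace X] (f : X →L[ℝ] ℝ) (hf : ‖f‖ = 1) :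
    ∃ x : X, ‖x‖ ≤ 1 ∧ f x = 1 := by
  have h1 : ∀ n : ℕ, ∃ x : X, ‖x‖ ≤ 1 ∧ 1 - 1 / ((n : ℝ) + 1) < f x := by
    intro n
    have hn : (0 : ℝ) < 1 / ((n : ℝ) + 1) := by positivity
    obtain ⟨x, hx1, hx2⟩ := f.exists_lt_apply_of_lt_opNorm (r := 1 - 1 / ((n : ℝ) + 1))
      (by rw [hf]; linarith)
    rw [Real.norm_eq_abs] at hx2
    rcases lt_abs.1 hx2 with h | h
    · exact ⟨x, hx1.le, h⟩
    · exact ⟨-x, by rw [norm_neg]; exact hx1.le, by rw [map_neg]; exact h⟩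
  choose x hx1 hx2 using h1
  have hlim0 : Filter.Tendsto (fun n : ℕ => 1 / ((n : ℝ) + 1)) Filter.atTop (nhds 0) :=
    tendsto_one_div_add_atTop_nhds_zero_nat
  have hcau : CauchySeq x := by
    rw [Metric.cauchySeq_iff]
    intro ρ hρ
    obtain ⟨τ, hτ, h⟩ := uc_close (X := X) hρ
    obtain ⟨N, hN⟩ := (hlim0.eventually (gt_mem_nhds hτ)).exists_forall_of_atTop
    refine ⟨N, fun m hm n hn => ?_⟩
    rw [dist_eq_norm]
    refine h f _ _ hf (hx1 m) (hx1 n) ?_ ?_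
    · have := hN m hm; have := hx2 m; linarith
    · have := hN n hn; have := hx2 n; linarith
  obtain ⟨x0, hx0⟩ := cauchySeq_tendsto_of_complete hcau
  have hn : ‖x0‖ ≤ 1 := le_of_tendsto' ((continuous_norm.tendsto x0).comp hx0) hx1
  refine ⟨x0, hn, le_antisymm ?_ ?_⟩
  · have h4 : f x0 ≤ ‖f‖ * ‖x0‖ := (le_abs_self _).trans (f.le_opNorm _)
    rw [hf, one_mul] at h4
    linarith
  · have h5 : Filter.Tendsto (fun n : ℕ => 1 - 1 / ((n : ℝ) + 1)) Filter.atTop (nhds (1 - 0)) :=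
      hlim0.const_sub 1
    rw [sub_zero] at h5
    exact le_of_tendsto_of_tendsto' h5 ((f.continuous.tendsto x0).comp hx0) (fun n => (hx2 n).le)

/-- package PC: exact inequality in uniformly convex spaces -/
theorem PC [CompleteSpace X] [UniformConvexSpace X] (T : ℂ →ₗ[ℝ] (X →L[ℝ] ℝ)) (δ ε : ℝ)
    (hδ : 0 < δ) (hδ1 : δ ≤ 1) (hT : IsPlane δ T) (hε0 : 0 ≤ ε) (hε2 : ε ≤ 2) :
    ∃ (x₁ x₂ : X) (p₁ p₂ : X →L[ℝ] ℝ), ‖x₁‖ = 1 ∧ ‖x₂‖ = 1 ∧ ‖x₁ - x₂‖ = ε ∧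
      ‖p₁‖ = 1 ∧ ‖p₂‖ = 1 ∧ p₁ x₁ = 1 ∧ p₂ x₂ = 1 ∧
      ‖p₁ - p₂‖ ≤ (1 + δ) * (2 * Real.sqrt (3 * δ) + (1 + δ) * ε) + 2 * δ := by
  have hTc : Continuous T := T.continuous_of_finiteDimensional
  let z : ℝ → ℂ := fun θ => Complex.exp ((θ : ℂ) * Complex.I)
  have hz : ∀ θ, ‖z θ‖ = 1 := fun θ => Complex.norm_exp_ofReal_mul_I θ
  have hT1 : ∀ θ, 1 ≤ ‖T (z θ)‖ := fun θ => by have := (hT (z θ)).1; rwa [hz] at this
  have hT2 : ∀ θ, ‖T (z θ)‖ ≤ 1 + δ := fun θ => by have := (hT (z θ)).2; rwa [hz, mul_one] at this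
  let P : ℝ → (X →L[ℝ] ℝ) := fun θ => (‖T (z θ)‖⁻¹ : ℝ) • T (z θ)
  have hP1 : ∀ θ, ‖P θ‖ = 1 := by
    intro θ
    have := hT1 θ
    simp only [P]
    rw [norm_smul, norm_inv, norm_norm, inv_mul_cancel₀ (by linarith)]
  have hPc : Continuous P := by
    have hzc : Continuous z := by fun_prop
    have h1 : Continuous (fun θ => T (z θ)) := hTc.comp hzc
    exact (h1.norm.inv₀ (fun θ => by have := hT1 θ; linarith)).smul h1
  choose x hx1 hx2 using fun θ => exists_norming (P θ) (hP1 θ)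
  have hxn : ∀ θ, ‖x θ‖ = 1 := by
    intro θ
    apply le_antisymm (hx1 θ)
    have h4 : P θ (x θ) ≤ ‖P θ‖ * ‖x θ‖ := (le_abs_self _).trans ((P θ).le_opNorm _)
    rw [hP1, one_mul, hx2] at h4
    exact h4
  have hxc : Continuous x := by
    rw [Metric.continuous_iff]
    intro θ ρ hρ
    obtain ⟨τ, hτ, h⟩ := uc_close (X := X) hρ
    obtain ⟨d, hd, h'⟩ := Metric.continuous_iff.1 hPc θ τ hτ
    refine ⟨d, hd, fun θ' hθ' => ?_⟩
    have h1 := h' θ' hθ'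
    rw [dist_eq_norm] at h1 ⊢
    refine h (P θ') _ _ (hP1 θ') (hx1 θ') (hx1 θ) ?_ ?_
    · rw [hx2]; linarith
    · have h2 : |(P θ' - P θ) (x θ)| ≤ ‖P θ' - P θ‖ * ‖x θ‖ := (P θ' - P θ).le_opNorm _
      rw [hxn, mul_one, sub_apply, hx2] at h2
      have := (abs_le.1 h2).1
      linarith
  have hzero : z 0 = 1 := by simp [z]
  have hpi : z Real.pi = -1 := by simp only [z]; exact Complex.exp_pi_mul_I
  have hPpi : P Real.pi = - P 0 := by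
    simp only [P]
    rw [hpi, hzero, map_neg, norm_neg, smul_neg]
  let g : ℝ → ℝ := fun θ => ‖x 0 - x θ‖
  have hg : Continuous g := by fun_prop
  have hg0 : g 0 = 0 := by simp [g]
  have hgpi : 2 ≤ g Real.pi := by
    have h1 : P 0 (x 0 - x Real.pi) = 2 := by
      have h2 : P Real.pi (x Real.pi) = 1 := hx2 _
      rw [hPpi] at h2
      have h3 : (-P 0) (x Real.pi) = -(P 0 (x Real.pi)) := rfl
      rw [h3] at h2
      rw [map_sub, hx2]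
      linarith
    have h4 : P 0 (x 0 - x Real.pi) ≤ ‖P 0‖ * ‖x 0 - x Real.pi‖ :=
      (le_abs_self _).trans ((P 0).le_opNorm _)
    rw [hP1, one_mul, h1] at h4
    exact h4
  obtain ⟨θ, -, hθ⟩ := intermediate_value_Icc Real.pi_pos.le hg.continuousOn
    (show ε ∈ Set.Icc (g 0) (g Real.pi) from ⟨by rw [hg0]; exact hε0, by linarith⟩)
  refine ⟨x 0, x θ, P 0, P θ, hxn 0, hxn θ, hθ, hP1 0, hP1 θ, hx2 0, hx2 θ, ?_⟩
  have hPT : ∀ θ, ‖P θ - T (z θ)‖ ≤ δ := by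
    intro θ
    have h1 := hT1 θ
    have h2 := hT2 θ
    have h3 : P θ - T (z θ) = (‖T (z θ)‖⁻¹ - 1 : ℝ) • T (z θ) := by
      ext v
      change ‖T (z θ)‖⁻¹ * T (z θ) v - T (z θ) v = (‖T (z θ)‖⁻¹ - 1) * T (z θ) v
      ring
    rw [h3, norm_smul, Real.norm_eq_abs, abs_of_nonpos (by
      have : ‖T (z θ)‖⁻¹ ≤ 1 := inv_le_one_of_one_le₀ h1
      linarith), neg_sub, sub_mul, one_mul, inv_mul_cancel₀ (by linarith)]
    linarith
  have hTx : ∀ θ, 1 ≤ T (z θ) (x θ) := by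
    intro θ
    have h1 := hx2 θ
    have h2 := hT1 θ
    simp only [P] at h1
    have h3 : (‖T (z θ)‖⁻¹ • T (z θ)) (x θ) = ‖T (z θ)‖⁻¹ * T (z θ) (x θ) := rfl
    rw [h3, inv_mul_eq_iff_eq_mul₀ (by linarith), mul_one] at h1
    rw [h1]; exact h2
  have hz1 : ‖z 0 - z θ‖ ≤ 2 * Real.sqrt (3 * δ) + (1 + δ) * ε := by
    have h1 := coo_near T hT hδ hδ1 (z 0) (hz 0) (x 0) (hx1 0) (hTx 0)
    have h2 := coo_near T hT hδ hδ1 (z θ) (hz θ) (x θ) (hx1 θ) (hTx θ)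
    have h3 : ‖coo T (x 0) - coo T (x θ)‖ ≤ (1 + δ) * ε := by
      rw [coo_sub, ← hθ]
      exact norm_coo T hT hδ _
    have h4 : z 0 - z θ = -(coo T (x 0) - z 0) + (coo T (x 0) - coo T (x θ)) + (coo T (x θ) - z θ) := by
      ring
    rw [h4]
    refine (norm_add₃_le).trans ?_
    rw [norm_neg]
    linarith
  have h5 : P 0 - P θ = (P 0 - T (z 0)) + T (z 0 - z θ) + (-(P θ - T (z θ))) := by
    rw [map_sub]; abel
  rw [h5]
  refine (norm_add₃_le).trans ?_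
  rw [norm_neg]
  have h6 := hPT 0
  have h7 := hPT θ
  have h8 := (hT (z 0 - z θ)).2
  have h9 : (1 + δ) * ‖z 0 - z θ‖ ≤ (1 + δ) * (2 * Real.sqrt (3 * δ) + (1 + δ) * ε) :=
    mul_le_mul_of_nonneg_left hz1 (by linarith)
  linarith

end Pool.T2H96.DM.UC
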