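import Mathlib
import Pool.Agent.T2H96.DM.Defs
import Pool.Agent.Helper799.DvMain

set_option autoImplicit false

namespace Pool.T2H96.DM

open Finset Pool.Helper799.Te

/-- points of the circle -/
noncomputable def xi (m : ℕ) (j : ℝ) : ℂ :=
  Complex.exp (((2 * Real.pi * j / m : ℝ) : ℂ) * Complex.I)

theorem xi_mul_re (m : ℕ) (j k : ℝ) :
    (xi m j * (starRingEnd ℂ) (xi m k)).re = Real.cos (2 * Real.pi * (j - k) / m) := by
  unfold xi
  rw [Complex.mul_re, Complex.conj_re, Complex.conj_im, Complex.exp_ofReal_mul_I_re,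
    Complex.exp_ofReal_mul_I_re, Complex.exp_ofReal_mul_I_im, Complex.exp_ofReal_mul_I_im]
  rw [show 2 * Real.pi * (j - k) / m = 2 * Real.pi * j / m - 2 * Real.pi * k / m by ring,
    Real.cos_sub]
  ring

/-- coefficients -/
noncomputable def cc (m : ℕ) (j : ℝ) (k : Fin (m + 3)) : ℝ :=
  Real.sqrt (2 / (m + 3 : ℕ)) * Real.cos (2 * Real.pi * (j - (k : ℕ)) / (m + 3 : ℕ))

theorem sum_cos (m : ℕ) (j : ℝ) :
    ∑ k : Fin (m + 3), Real.cos (2 * (2 * Real.pi * (j - (k : ℕ)) / (m + 3 : ℕ))) = 0 := by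
  have hm0 : ((m + 3 : ℕ) : ℂ) ≠ 0 := by exact_mod_cast (by omega : m + 3 ≠ 0)
  set ζ : ℂ := Complex.exp (-(4 * Real.pi / (m + 3 : ℕ)) * Complex.I) with hζ
  have hζ1 : ζ ≠ 1 := by
    intro h
    rw [hζ, Complex.exp_eq_one_iff] at h
    obtain ⟨n, hn⟩ := h
    have hpi : (Real.pi : ℂ) ≠ 0 := by exact_mod_cast Real.pi_ne_zero
    have h1 : (-2 : ℂ) = n * ((m + 3 : ℕ) : ℂ) := by
      have h2 : (-(4 * Real.pi / (m + 3 : ℕ)) : ℂ) = n * (2 * Real.pi) := by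
        have := mul_right_cancel₀ Complex.I_ne_zero (show -(4 * (Real.pi : ℂ) / (m + 3 : ℕ)) * Complex.I
          = (n * (2 * Real.pi)) * Complex.I by rw [hn]; ring)
        exact this
      field_simp at h2
      linear_combination h2 / 2
    have h2 : (-2 : ℤ) = n * ((m + 3 : ℕ) : ℤ) := by exact_mod_cast h1
    have h3 : ((m + 3 : ℕ) : ℤ) ∣ -2 := ⟨n, by rw [h2]; ring⟩
    have h4 : ((m + 3 : ℕ) : ℤ) ∣ 2 := by
      have := (dvd_neg (a := ((m + 3 : ℕ) : ℤ)) (b := 2)).1 h3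
      exact this
    have h5 := Int.le_of_dvd (by norm_num) h4
    push_cast at h5
    omega
  have hζm : ζ ^ (m + 3) = 1 := by
    rw [hζ, ← Complex.exp_nat_mul, Complex.exp_eq_one_iff]
    refine ⟨-2, ?_⟩
    field_simp
    push_cast
    ring
  have hgeo : ∑ k : Fin (m + 3), ζ ^ (k : ℕ) = 0 := by
    rw [Fin.sum_univ_eq_sum_range (fun k => ζ ^ k), geom_sum_eq hζ1, hζm, sub_self, zero_div]
  have h1 : ∀ k : Fin (m + 3), Real.cos (2 * (2 * Real.pi * (j - (k : ℕ)) / (m + 3 : ℕ))) =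
      (Complex.exp ((4 * Real.pi * j / (m + 3 : ℕ)) * Complex.I) * ζ ^ (k : ℕ)).re := by
    intro k
    rw [hζ, ← Complex.exp_nat_mul, ← Complex.exp_add]
    rw [show ((4 * Real.pi * j / (m + 3 : ℕ)) * Complex.I +
      ((k : ℕ) : ℂ) * (-(4 * Real.pi / (m + 3 : ℕ)) * Complex.I) : ℂ) =
      ((2 * (2 * Real.pi * (j - (k : ℕ)) / (m + 3 : ℕ)) : ℝ) : ℂ) * Complex.I by
        push_cast; ring]
    rw [Complex.exp_ofReal_mul_I_re]
  rw [Finset.sum_congr rfl (fun k _ => h1 k), ← Complex.re_sum, ← Finset.mul_sum, hgeo]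
  simp

theorem cc_sq (m : ℕ) (j : ℝ) : ∑ k : Fin (m + 3), ‖cc m j k‖ ^ 2 = 1 := by
  have hm : (0 : ℝ) < ((m + 3 : ℕ) : ℝ) := by positivity
  have h1 : ∀ k : Fin (m + 3), ‖cc m j k‖ ^ 2 = 1 / ((m + 3 : ℕ) : ℝ) +
      1 / ((m + 3 : ℕ) : ℝ) * Real.cos (2 * (2 * Real.pi * (j - (k : ℕ)) / (m + 3 : ℕ))) := by
    intro k
    unfold cc
    rw [Real.norm_eq_abs, sq_abs, mul_pow, Real.sq_sqrt (by positivity), Real.cos_two_mul]
    ring
  rw [Finset.sum_congr rfl (fun k _ => h1 k), Finset.sum_add_distrib, ← Finset.mul_sum, sum_cos]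
  simp
  field_simp

theorem cc_shift (m : ℕ) (j k : Fin (m + 3)) :
    cc m ((j : ℕ) : ℝ) k = cc m 0 (k - j) := by
  unfold cc
  congr 1
  have hj : (j : ℕ) ≤ m + 3 := j.isLt.le
  have hm : (0 : ℝ) < ((m + 3 : ℕ) : ℝ) := by positivity
  have h1 : (((k - j : Fin (m + 3)) : ℕ) : ℝ) =
      ((m + 3 : ℕ) : ℝ) - (j : ℕ) + (k : ℕ) - ((m + 3 : ℕ) : ℝ) * (((m + 3 - (j : ℕ) + k) / (m + 3) : ℕ) : ℝ) := by
    rw [Fin.val_sub]
    have h2 := Nat.div_add_mod (m + 3 - (j : ℕ) + k) (m + 3)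
    have h3 : (((m + 3 : ℕ) : ℝ)) * (((m + 3 - (j : ℕ) + k) / (m + 3) : ℕ) : ℝ) +
        (((m + 3 - (j : ℕ) + k) % (m + 3) : ℕ) : ℝ) = ((m + 3 - (j : ℕ) + k : ℕ) : ℝ) := by
      exact_mod_cast h2
    have h4 : ((m + 3 - (j : ℕ) + k : ℕ) : ℝ) = ((m + 3 : ℕ) : ℝ) - (j : ℕ) + (k : ℕ) := by
      rw [Nat.cast_add, Nat.cast_sub hj]
    linarith
  rw [h1, zero_sub]
  set Q : ℕ := (m + 3 - (j : ℕ) + k) / (m + 3) with hQ
  rw [← Real.cos_neg]
  have h5 : -(2 * Real.pi * (((j : ℕ) : ℝ) - (k : ℕ)) / ((m + 3 : ℕ) : ℝ)) =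
      -(2 * Real.pi * -(((m + 3 : ℕ) : ℝ) - (j : ℕ) + (k : ℕ) - ((m + 3 : ℕ) : ℝ) * (Q : ℝ)) / ((m + 3 : ℕ) : ℝ))
        + (((Q : ℤ) - 1 : ℤ) : ℝ) * (2 * Real.pi) := by
    push_cast
    push_cast at hm
    field_simp
    ring
  rw [h5, Real.cos_add_int_mul_two_pi, Real.cos_neg]

/-- the net is `2π/m`-dense in the circle -/
theorem net (m : ℕ) (z : ℂ) (hz : ‖z‖ = 1) :
    ∃ j : Fin (m + 3), ‖z - xi (m + 3) ((j : ℕ) : ℝ)‖ ≤ 2 * Real.pi / (m + 3 : ℕ) := by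
  have hm : (0 : ℝ) < ((m + 3 : ℕ) : ℝ) := by positivity
  have hpi := Real.pi_pos
  set α := Complex.arg z with hα
  have hzα : z = Complex.exp ((α : ℂ) * Complex.I) := by
    have := Complex.norm_mul_exp_arg_mul_I z
    rw [hz] at this
    simpa using this.symm
  set J : ℤ := ⌊α * (m + 3 : ℕ) / (2 * Real.pi)⌋ with hJ
  have hJ1 : (J : ℝ) ≤ α * (m + 3 : ℕ) / (2 * Real.pi) := Int.floor_le _
  have hJ2 : α * (m + 3 : ℕ) / (2 * Real.pi) < J + 1 := Int.lt_floor_add_one _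
  have hmz : (0 : ℤ) < ((m + 3 : ℕ) : ℤ) := by positivity
  have hr0 := Int.emod_nonneg J hmz.ne'
  have hr1 := Int.emod_lt_of_pos J hmz
  refine ⟨⟨(J % ((m + 3 : ℕ) : ℤ)).toNat, by omega⟩, ?_⟩
  have hcast : (((J % ((m + 3 : ℕ) : ℤ)).toNat : ℕ) : ℝ) = (J : ℝ) - ((m + 3 : ℕ) : ℝ) * ((J / ((m + 3 : ℕ) : ℤ) : ℤ) : ℝ) := by
    have h1 : (((J % ((m + 3 : ℕ) : ℤ)).toNat : ℕ) : ℤ) = J - ((m + 3 : ℕ) : ℤ) * (J / ((m + 3 : ℕ) : ℤ)) := by
      rw [Int.toNat_of_nonneg hr0]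
      have := Int.mul_ediv_add_emod J ((m + 3 : ℕ) : ℤ)
      linarith
    exact_mod_cast h1
  have hxi : xi (m + 3) (((J % ((m + 3 : ℕ) : ℤ)).toNat : ℕ) : ℝ) =
      Complex.exp (((2 * Real.pi * J / (m + 3 : ℕ) : ℝ) : ℂ) * Complex.I) := by
    unfold xi
    rw [hcast, Complex.exp_eq_exp_iff_exists_int]
    refine ⟨-(J / ((m + 3 : ℕ) : ℤ)), ?_⟩
    have hm' : ((m + 3 : ℕ) : ℂ) ≠ 0 := by exact_mod_cast hm.ne'
    push_cast at hm' ⊢
    field_simp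
    ring
  simp only
  rw [hxi]
  set β : ℝ := 2 * Real.pi * J / (m + 3 : ℕ) with hβ
  have h1 : z - Complex.exp ((β : ℂ) * Complex.I) =
      Complex.exp ((β : ℂ) * Complex.I) * (Complex.exp (Complex.I * ((α - β : ℝ) : ℂ)) - 1) := by
    rw [mul_sub, ← Complex.exp_add, mul_one, hzα]
    congr 2
    push_cast; ring
  rw [h1, norm_mul, Complex.norm_exp_ofReal_mul_I, one_mul]
  refine Real.norm_exp_I_mul_ofReal_sub_one_le.trans ?_
  rw [Real.norm_eq_abs, abs_le]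
  rw [le_div_iff₀ (by positivity)] at hJ1
  rw [div_lt_iff₀ (by positivity)] at hJ2
  have h2 : β * (m + 3 : ℕ) = J * (2 * Real.pi) := by rw [hβ]; field_simp
  constructor
  · have h3 : 0 ≤ α - β := by
      have : 0 ≤ (α - β) * (m + 3 : ℕ) := by rw [sub_mul, h2]; linarith
      exact nonneg_of_mul_nonneg_left this hm
    have h4 : 0 ≤ 2 * Real.pi / (m + 3 : ℕ) := by positivity
    linarith
  · rw [le_div_iff₀ hm, sub_mul, h2]
    linarith

theorem PL : PLStm := by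
  classical
  intro X _ _ hX δ hδ hδ1
  set t : ℝ := δ / 7 with ht
  have ht0 : 0 < t := by positivity
  have ht1 : t ≤ 1 / 7 := by rw [ht]; linarith
  obtain ⟨m, hm⟩ := exists_nat_gt (2 * Real.pi / t)
  have hm0 : (0 : ℝ) < ((m + 3 : ℕ) : ℝ) := by positivity
  have hmt : 2 * Real.pi / ((m + 3 : ℕ) : ℝ) ≤ t := by
    rw [div_le_iff₀ hm0]
    rw [div_lt_iff₀ ht0] at hm
    push_cast
    nlinarith
  set q := Real.sqrt (2 * ((m + 3 : ℕ) : ℝ)) with hq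
  have hq0 : 0 < q := Real.sqrt_pos.2 (by positivity)
  obtain ⟨M, w, hw, hwK⟩ := exists_big hX (32 / 9 * (q / t))
  let y : Fin (m + 3) → Fin M × Fin (m + 3) → X := fun j p => cc m ((j : ℕ) : ℝ) p.2 • w p.1
  have hyB : ∀ j, Bes ℝ (y j) := fun j => hw.prod _ (cc_sq m _).le
  have hlow : ∀ j, q / t ≤ rr ℝ (y j) := by
    intro j
    have h1 := rr_prod_lower (𝕜 := ℝ) (cc m ((j : ℕ) : ℝ)) (cc_sq m _) w
    have h2 : q / t ≤ 9 / 32 * rr ℝ w := by linarith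
    exact h2.trans h1
  set r := rr ℝ (fun p : Fin M × Fin (m + 3) => cc m 0 p.2 • w p.1) with hr
  have hrr : ∀ j, rr ℝ (y j) = r := by
    intro j
    rw [hr]
    let e : Fin M × Fin (m + 3) ≃ Fin M × Fin (m + 3) :=
      Equiv.prodCongr (Equiv.refl _) (Equiv.subRight j)
    unfold rr
    rw [Av_equiv e (fun ε => ‖ss ℝ (y j) ε‖)]
    congr 1
    funext ε
    congr 1
    unfold ss
    refine Eq.trans ?_ (Equiv.sum_comp e (fun p : Fin M × Fin (m + 3) =>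
      ((sb (ε p) : ℝ) : ℝ) • cc m 0 p.2 • w p.1))
    apply Finset.sum_congr rfl
    rintro ⟨i, k⟩ _
    simp only [y, e, Equiv.prodCongr_apply, Prod.map_apply, Equiv.refl_apply, Equiv.subRight_apply]
    rw [cc_shift]
    rfl
  have hrq : q / t ≤ r := by rw [← hrr 0]; exact hlow 0
  have hrpos : 0 < r := lt_of_lt_of_le (by positivity) hrq
  have hqr : q ≤ t * r := by
    rw [div_le_iff₀ ht0] at hrq
    linarith
  -- a good sign vector
  obtain ⟨ε, hε⟩ : ∃ ε : Fin M × Fin (m + 3) → Bool,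
      ∑ j, (‖ss ℝ (y j) ε‖ - r) ^ 2 ≤ 2 * ((m + 3 : ℕ) : ℝ) := by
    by_contra hcon
    push Not at hcon
    have h1 : Av (fun ε => ∑ j, (‖ss ℝ (y j) ε‖ - r) ^ 2) ≤ 2 * ((m + 3 : ℕ) : ℝ) := by
      rw [Av_sum]
      calc ∑ j, Av (fun ε => (‖ss ℝ (y j) ε‖ - r) ^ 2) ≤ ∑ j : Fin (m + 3), (2 : ℝ) := by
            apply Finset.sum_le_sum
            intro j _
            have h2 := var_norm (hyB j)
            have h3 : (fun ε => (‖ss ℝ (y j) ε‖ - r) ^ 2) = fun ε =>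
                (‖ss ℝ (y j) ε‖ ^ 2 - (2 * r) * ‖ss ℝ (y j) ε‖) + r ^ 2 := by
              funext ε; ring
            rw [h3, Av_add, Av_sub, Av_mul, Av_const]
            have h4 : Av (fun ε => ‖ss ℝ (y j) ε‖) = r := hrr j
            rw [h4] at h2 ⊢
            nlinarith
        _ = 2 * ((m + 3 : ℕ) : ℝ) := by
            rw [Finset.sum_const, nsmul_eq_mul, Finset.card_univ, Fintype.card_fin]; ring
    have h2 : 2 * ((m + 3 : ℕ) : ℝ) < Av (fun ε => ∑ j, (‖ss ℝ (y j) ε‖ - r) ^ 2) := by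
      rw [← Av_const (ι := Fin M × Fin (m + 3)) (2 * ((m + 3 : ℕ) : ℝ))]
      unfold Av
      apply div_lt_div_of_pos_right _ (by positivity)
      apply Finset.sum_lt_sum_of_nonempty ⟨fun _ => true, Finset.mem_univ _⟩
      intro ε _
      exact hcon ε
    linarith
  -- the operator
  let T0 : ℂ →ₗ[ℝ] X :=
    { toFun := fun z => ∑ p : Fin M × Fin (m + 3), sb (ε p) •
        ((Real.sqrt (2 / (m + 3 : ℕ)) * (z * (starRingEnd ℂ) (xi (m + 3) ((p.2 : ℕ) : ℝ))).re) • w p.1)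
      map_add' := by
        intro a b
        rw [← Finset.sum_add_distrib]
        apply Finset.sum_congr rfl; intro p _
        rw [← smul_add, ← add_smul, ← mul_add, ← Complex.add_re, ← add_mul]
      map_smul' := by
        intro c a
        rw [RingHom.id_apply, Finset.smul_sum]
        apply Finset.sum_congr rfl; intro p _
        rw [smul_comm c, smul_smul c]
        congr 2
        rw [smul_mul_assoc, Complex.smul_re, smul_eq_mul]
        ring }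
  let T : ℂ →L[ℝ] X := LinearMap.toContinuousLinearMap T0
  have hT : ∀ j : Fin (m + 3), T (xi (m + 3) ((j : ℕ) : ℝ)) = ss ℝ (y j) ε := by
    intro j
    change ∑ p : Fin M × Fin (m + 3), sb (ε p) •
        ((Real.sqrt (2 / (m + 3 : ℕ)) * ((xi (m + 3) ((j : ℕ) : ℝ)) *
          (starRingEnd ℂ) (xi (m + 3) ((p.2 : ℕ) : ℝ))).re) • w p.1) = _
    unfold ss
    apply Finset.sum_congr rfl; intro p _
    rw [xi_mul_re]
    simp only [y, cc]
    rfl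
  have hnet : ∀ j : Fin (m + 3), (1 - t) * r ≤ ‖T (xi (m + 3) ((j : ℕ) : ℝ))‖ ∧
      ‖T (xi (m + 3) ((j : ℕ) : ℝ))‖ ≤ (1 + t) * r := by
    intro j
    rw [hT]
    have h1 : (‖ss ℝ (y j) ε‖ - r) ^ 2 ≤ 2 * ((m + 3 : ℕ) : ℝ) :=
      (Finset.single_le_sum (f := fun j => (‖ss ℝ (y j) ε‖ - r) ^ 2)
        (fun x _ => sq_nonneg _) (Finset.mem_univ j)).trans hε
    have h2 : |‖ss ℝ (y j) ε‖ - r| ≤ q := Real.abs_le_sqrt h1
    have h3 := abs_le.1 h2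
    constructor
    · linarith [h3.1]
    · linarith [h3.2]
  have hunit : ∀ z : ℂ, z ≠ 0 → ‖(‖z‖⁻¹ : ℝ) • z‖ = 1 := by
    intro z h0
    have hpos : 0 < ‖z‖ := norm_pos_iff.2 h0
    rw [norm_smul, Real.norm_eq_abs, abs_of_pos (by positivity), inv_mul_cancel₀ hpos.ne']
  have hscale : ∀ z : ℂ, z ≠ 0 → ‖T z‖ = ‖T ((‖z‖⁻¹ : ℝ) • z)‖ * ‖z‖ := by
    intro z h0
    have hpos : 0 < ‖z‖ := norm_pos_iff.2 h0
    rw [map_smul, norm_smul, Real.norm_eq_abs, abs_of_pos (by positivity)]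
    field_simp
  have hTn : ‖T‖ * (1 - t) ≤ (1 + t) * r := by
    have h1 : ‖T‖ ≤ (1 + t) * r + ‖T‖ * t := by
      apply ContinuousLinearMap.opNorm_le_bound _ (by positivity)
      intro z
      by_cases h0 : z = 0
      · subst h0; simp
      obtain ⟨j, hj⟩ := net m _ (hunit z h0)
      rw [hscale z h0]
      apply mul_le_mul_of_nonneg_right _ (norm_nonneg _)
      set z' := (‖z‖⁻¹ : ℝ) • z
      have e1 : T z' = T (xi (m + 3) ((j : ℕ) : ℝ)) + T (z' - xi (m + 3) ((j : ℕ) : ℝ)) := by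
        rw [← map_add]; congr 1; ring
      rw [e1]
      refine (norm_add_le _ _).trans ?_
      have e2 := (hnet j).2
      have e3 : ‖T (z' - xi (m + 3) ((j : ℕ) : ℝ))‖ ≤ ‖T‖ * t :=
        (T.le_opNorm _).trans (mul_le_mul_of_nonneg_left (hj.trans hmt) (norm_nonneg _))
      linarith
    linarith
  have hl : ∀ z : ℂ, z ≠ 0 → (1 - t) * r - ‖T‖ * t ≤ ‖T ((‖z‖⁻¹ : ℝ) • z)‖ := by
    intro z h0
    obtain ⟨j, hj⟩ := net m _ (hunit z h0)
    set z' := (‖z‖⁻¹ : ℝ) • z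
    have e1 : T (xi (m + 3) ((j : ℕ) : ℝ)) = T z' - T (z' - xi (m + 3) ((j : ℕ) : ℝ)) := by
      rw [← map_sub]; congr 1; ring
    have e2 := (hnet j).1
    have e3 : ‖T (z' - xi (m + 3) ((j : ℕ) : ℝ))‖ ≤ ‖T‖ * t :=
      (T.le_opNorm _).trans (mul_le_mul_of_nonneg_left (hj.trans hmt) (norm_nonneg _))
    have e4 : ‖T (xi (m + 3) ((j : ℕ) : ℝ))‖ ≤ ‖T z'‖ + ‖T (z' - xi (m + 3) ((j : ℕ) : ℝ))‖ := by
      conv_lhs => rw [e1]
      exact norm_sub_le _ _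
    linarith
  -- constants
  set U : ℝ := (1 + t) * r / (1 - t) with hU
  have h1t : 0 < 1 - t := by linarith
  have hTU : ‖T‖ ≤ U := by rw [hU, le_div_iff₀ h1t]; exact hTn
  set L : ℝ := (1 - t) * r - U * t with hL
  have hLU : U ≤ (1 + δ) * L := by
    have hUt : U * (1 - t) = (1 + t) * r := by rw [hU]; field_simp
    have hδt : δ = 7 * t := by rw [ht]; ring
    have h3 : U * (1 - t) ≤ ((1 + δ) * L) * (1 - t) := by
      rw [hL, hδt]
      have : ((1 + 7 * t) * ((1 - t) * r - U * t)) * (1 - t) =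
          (1 + 7 * t) * ((1 - t) ^ 2 * r - t * (U * (1 - t))) := by ring
      rw [this, hUt]
      have h4 : (1 + 7 * t) * ((1 - t) ^ 2 * r - t * ((1 + t) * r)) - (1 + t) * r =
          r * (3 * t - 21 * t ^ 2) := by ring
      have h5 : 0 ≤ 3 * t - 21 * t ^ 2 := by nlinarith
      have h6 := mul_nonneg hrpos.le h5
      linarith
    exact le_of_mul_le_mul_right h3 h1t
  have hUpos : 0 < U := by rw [hU]; positivity
  have hLpos : 0 < L := by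
    by_contra hcon
    push Not at hcon
    have : (1 + δ) * L ≤ 0 := mul_nonpos_of_nonneg_of_nonpos (by positivity) hcon
    linarith
  refine ⟨(L⁻¹ : ℝ) • T0, ?_⟩
  intro z
  have h1 : ‖((L⁻¹ : ℝ) • T0) z‖ = L⁻¹ * ‖T z‖ := by
    change ‖(L⁻¹ : ℝ) • T z‖ = _
    rw [norm_smul, Real.norm_eq_abs, abs_of_pos (by positivity)]
  rw [h1]
  by_cases h0 : z = 0
  · subst h0; simp
  constructor
  · rw [hscale z h0]
    have h2 : L ≤ ‖T ((‖z‖⁻¹ : ℝ) • z)‖ := by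
      refine le_trans ?_ (hl z h0)
      rw [hL]
      have := mul_le_mul_of_nonneg_right hTU ht0.le
      linarith
    have h3 : 1 ≤ L⁻¹ * ‖T ((‖z‖⁻¹ : ℝ) • z)‖ := by
      rw [← div_eq_inv_mul, le_div_iff₀ hLpos, one_mul]
      exact h2
    calc ‖z‖ = 1 * ‖z‖ := (one_mul _).symm
      _ ≤ (L⁻¹ * ‖T ((‖z‖⁻¹ : ℝ) • z)‖) * ‖z‖ := mul_le_mul_of_nonneg_right h3 (norm_nonneg _)
      _ = _ := by ring
  · have h2 : ‖T z‖ ≤ U * ‖z‖ := (T.le_opNorm z).trans (mul_le_mul_of_nonneg_right hTU (norm_nonneg _))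
    calc L⁻¹ * ‖T z‖ ≤ L⁻¹ * (U * ‖z‖) := by gcongr
      _ ≤ L⁻¹ * (((1 + δ) * L) * ‖z‖) := by gcongr
      _ = (1 + δ) * ‖z‖ := by field_simp

end Pool.T2H96.DM
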