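import Pool.Agent.T2H96.DM.Defs

set_option autoImplicit false

/-!
# DM, package UN: universe transfer of the existence of almost Euclidean planes
-/

namespace Pool.T2H96.DM

universe u

theorem UN (h : PLStm) : PLuStm.{u} := by
  intro X _ _ hX δ hδ hδ1
  classical
  -- a linearly independent sequence
  obtain ⟨v, hv⟩ : ∃ v : ℕ → X, LinearIndependent ℝ v := by
    let b := Module.Basis.ofVectorSpace ℝ X
    have hinf : Infinite (Module.Basis.ofVectorSpaceIndex ℝ X) := by
      by_contra hfin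
      rw [not_infinite_iff_finite] at hfin
      exact hX (Module.Finite.of_basis b)
    let e := Infinite.natEmbedding (Module.Basis.ofVectorSpaceIndex ℝ X)
    exact ⟨fun n => b (e n), b.linearIndependent.comp _ e.injective⟩
  let L : (ℕ →₀ ℝ) →ₗ[ℝ] X := Finsupp.linearCombination ℝ v
  have hL : Function.Injective L := hv
  letI ng : NormedAddCommGroup (ℕ →₀ ℝ) := NormedAddCommGroup.induced (ℕ →₀ ℝ) X L hL
  letI ns : NormedSpace ℝ (ℕ →₀ ℝ) := NormedSpace.induced ℝ (ℕ →₀ ℝ) X L
  have hinf : ¬ FiniteDimensional ℝ (ℕ →₀ ℝ) := by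
    intro hfd
    have hfin : Finite ℕ :=
      Module.Finite.finite_basis (Finsupp.basisSingleOne (R := ℝ) (ι := ℕ))
    exact not_finite ℕ
  obtain ⟨T, hT⟩ := h (ℕ →₀ ℝ) hinf δ hδ hδ1
  exact ⟨L.comp T, fun z => hT z⟩

end Pool.T2H96.DM
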