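import Mathlib
import Pool.Agent.T2H96.DM.UN
import Pool.Agent.T2H96.DM.PL
import Pool.Agent.T2H96.DM.PA
import Pool.Agent.T2H96.DM.PB
import Pool.Agent.T2H96.DM.PC
import Pool.Agent.T2H96.DM.BP

/-!
# Duality-map moduli of infinite-dimensional Banach spaces (MP_8cc159_an)

For every infinite-dimensional real Banach space `X`:
* `ε ≤ d⁺_X(ε)` for every `ε ∈ [0,2]`;
* for every `ε ∈ [0,2]` and `η > 0` there is `ε' ∈ [0,2]` with `|ε' - ε| < η` and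
  `d⁻_X(ε') < ε' + η`;
* if `X` is uniformly convex, `d⁻_X(ε) ≤ ε` for every `ε ∈ [0,2]`.

The planes are found with Rademacher averages (library of `Pool.Agent.Helper799`), the second part
uses the Bishop-Phelps-Bollobas theorem.
-/

set_option autoImplicit false

namespace Pool.T2H96.DM.Mod

open Set Filter Topology Pool.T2H96.DM

universe u

/-- norm-one supporting functionals at `x` -/
def J1 {X : Type u} [NormedAddCommGroup X] [NormedSpace ℝ X] (x : X) : Set (X →L[ℝ] ℝ) :=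
  {p | ‖p‖ = 1 ∧ p x = 1}

/-- the set of all `‖p₁ - p₂‖` with `p_i ∈ J₁(x_i)`, `‖x_i‖ = 1`, `‖x₁ - x₂‖ = ε` -/
def distSet (X : Type u) [NormedAddCommGroup X] [NormedSpace ℝ X] (ε : ℝ) : Set ℝ :=
  {t | ∃ x₁ x₂ : X, ‖x₁‖ = 1 ∧ ‖x₂‖ = 1 ∧ ‖x₁ - x₂‖ = ε ∧
    ∃ p₁ ∈ J1 x₁, ∃ p₂ ∈ J1 x₂, t = ‖p₁ - p₂‖}

/-- `d⁻_X(ε)` -/
noncomputable def dminus (X : Type u) [NormedAddCommGroup X] [NormedSpace ℝ X] (ε : ℝ) : ℝ :=
  sInf (distSet X ε)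

/-- `d⁺_X(ε)` -/
noncomputable def dplus (X : Type u) [NormedAddCommGroup X] [NormedSpace ℝ X] (ε : ℝ) : ℝ :=
  sSup (distSet X ε)

variable {X : Type u} [NormedAddCommGroup X] [NormedSpace ℝ X]

theorem bddAbove (ε : ℝ) : BddAbove (distSet X ε) := by
  refine ⟨2, ?_⟩
  rintro t ⟨x₁, x₂, -, -, -, p₁, hp₁, p₂, hp₂, rfl⟩
  refine (norm_sub_le _ _).trans ?_
  rw [hp₁.1, hp₂.1]; norm_num

theorem bddBelow (ε : ℝ) : BddBelow (distSet X ε) := by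
  refine ⟨0, ?_⟩
  rintro t ⟨x₁, x₂, -, -, -, p₁, hp₁, p₂, hp₂, rfl⟩
  exact norm_nonneg _

theorem exists_pair (hX : ¬ FiniteDimensional ℝ X) : ∃ (x : X) (p : X →L[ℝ] ℝ), ‖x‖ = 1 ∧ p ∈ J1 x := by
  have hn : Nontrivial X := by
    by_contra h
    rw [not_nontrivial_iff_subsingleton] at h
    exact hX inferInstance
  obtain ⟨v, hv⟩ := exists_ne (0 : X)
  have hpos : 0 < ‖v‖ := norm_pos_iff.2 hv
  have h1 : ‖(‖v‖⁻¹ : ℝ) • v‖ = 1 := by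
    rw [norm_smul, norm_inv, norm_norm, inv_mul_cancel₀ hpos.ne']
  obtain ⟨p, hp1, hp2⟩ := exists_dual_vector ℝ ((‖v‖⁻¹ : ℝ) • v) (by
    intro h; rw [h1] at h; norm_num at h)
  refine ⟨_, p, h1, hp1, ?_⟩
  rw [hp2, h1]; rfl

theorem dual_infinite (hX : ¬ FiniteDimensional ℝ X) : ¬ FiniteDimensional ℝ (X →L[ℝ] ℝ) := by
  intro h
  apply hX
  have h2 : FiniteDimensional ℝ ((X →L[ℝ] ℝ) →L[ℝ] ℝ) := inferInstance
  exact FiniteDimensional.of_injective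
    (NormedSpace.inclusionInDoubleDualLi ℝ (E := X)).toLinearMap
    (NormedSpace.inclusionInDoubleDualLi ℝ (E := X)).injective

theorem part_a (hX : ¬ FiniteDimensional ℝ X) (ε : ℝ) (hε : ε ∈ Icc (0 : ℝ) 2) :
    (distSet X ε).Nonempty ∧ ε ≤ dplus X ε := by
  rcases hε.1.eq_or_lt with h0 | h0
  · subst h0
    obtain ⟨x, p, hx, hp⟩ := exists_pair hX
    have hmem : (0 : ℝ) ∈ distSet X 0 := ⟨x, x, hx, hx, by simp, p, hp, p, hp, by simp⟩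
    exact ⟨⟨_, hmem⟩, le_csSup (bddAbove 0) hmem⟩
  · have key : ∀ δ : ℝ, 0 < δ → δ ≤ 1 → ∃ t ∈ distSet X ε,
        ε / (1 + δ) ^ 2 - 2 * Real.sqrt (3 * δ) ≤ t := by
      intro δ hδ hδ1
      obtain ⟨T, hT⟩ := UN.{u} PL X hX δ hδ hδ1
      obtain ⟨x₁, x₂, p₁, p₂, h1, h2, h3, h4, h5, h6, h7, h8⟩ := PA X T δ ε hδ hδ1 hT h0 hε.2
      exact ⟨_, ⟨x₁, x₂, h1, h2, h3, p₁, ⟨h4, h6⟩, p₂, ⟨h5, h7⟩, rfl⟩, h8⟩
    obtain ⟨t, ht, -⟩ := key 1 one_pos le_rfl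
    refine ⟨⟨t, ht⟩, ?_⟩
    have hlim : Tendsto (fun δ : ℝ => ε / (1 + δ) ^ 2 - 2 * Real.sqrt (3 * δ)) (𝓝[>] 0) (𝓝 ε) := by
      have hc : ContinuousAt (fun δ : ℝ => ε / (1 + δ) ^ 2 - 2 * Real.sqrt (3 * δ)) 0 := by
        apply ContinuousAt.sub
        · apply ContinuousAt.div (by fun_prop) (by fun_prop) (by norm_num)
        · fun_prop
      have h1 := hc.tendsto
      simp only [add_zero, one_pow, div_one, mul_zero, Real.sqrt_zero, sub_zero] at h1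
      exact h1.mono_left nhdsWithin_le_nhds
    refine le_of_tendsto hlim ?_
    filter_upwards [Ioo_mem_nhdsGT (show (0 : ℝ) < 1 by norm_num)] with δ hδ
    obtain ⟨t, ht, ht2⟩ := key δ hδ.1 hδ.2.le
    exact ht2.trans (le_csSup (bddAbove ε) ht)

theorem part_b [CompleteSpace X] (hX : ¬ FiniteDimensional ℝ X) (ε : ℝ) (hε : ε ∈ Icc (0 : ℝ) 2)
    (η : ℝ) (hη : 0 < η) :
    ∃ ε' ∈ Icc (0 : ℝ) 2, |ε' - ε| < η ∧ dminus X ε' < ε' + η := by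
  set ρ : ℝ := min (1 / 10) (η / 40) with hρ
  have hρ0 : 0 < ρ := lt_min (by norm_num) (by positivity)
  have hρ1 : ρ ≤ 1 / 10 := min_le_left _ _
  have hρ2 : ρ ≤ η / 40 := min_le_right _ _
  by_cases hA : ε < 2 * ρ
  · obtain ⟨x, p, hx, hp⟩ := exists_pair hX
    have hmem : (0 : ℝ) ∈ distSet X 0 := ⟨x, x, hx, hx, by simp, p, hp, p, hp, by simp⟩
    refine ⟨0, ⟨le_rfl, by norm_num⟩, ?_, ?_⟩
    · rw [zero_sub, abs_neg, abs_of_nonneg hε.1]; linarith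
    · have := csInf_le (bddBelow 0) hmem
      unfold dminus
      linarith
  by_cases hB : 2 - 3 * ρ < ε
  · obtain ⟨x, p, hx, hp⟩ := exists_pair hX
    have h2x : ‖x - -x‖ = 2 := by
      rw [sub_neg_eq_add, ← two_smul ℝ x, norm_smul, hx]; norm_num
    have h2p : ‖p - -p‖ = 2 := by
      rw [sub_neg_eq_add, ← two_smul ℝ p, norm_smul, hp.1]; norm_num
    have hmem : (2 : ℝ) ∈ distSet X 2 := ⟨x, -x, hx, by rw [norm_neg, hx], h2x, p, hp, -p,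
      ⟨by rw [norm_neg, hp.1], by
        change -(p (-x)) = 1
        rw [map_neg, neg_neg]; exact hp.2⟩, h2p.symm⟩
    refine ⟨2, ⟨by norm_num, le_rfl⟩, ?_, ?_⟩
    · rw [abs_lt]; constructor <;> linarith [hε.2]
    · have := csInf_le (bddBelow 2) hmem
      unfold dminus
      linarith
  push Not at hA hB
  obtain ⟨T, hT⟩ := UN.{u} PL (X →L[ℝ] ℝ) (dual_infinite hX) (ρ ^ 2) (by positivity) (by nlinarith)
  obtain ⟨x₁, x₂, p₁, p₂, h1, h2, h3, h4, h5, h6, h7, h8⟩ := PB BP X T ρ ε hρ0 hρ1 hT hA hB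
  have h3' := abs_le.1 h3
  refine ⟨‖x₁ - x₂‖, ⟨norm_nonneg _, ?_⟩, ?_, ?_⟩
  · refine (norm_sub_le _ _).trans ?_
    rw [h1, h2]; norm_num
  · exact lt_of_le_of_lt h3 (by linarith)
  · have := csInf_le (bddBelow ‖x₁ - x₂‖) (show ‖p₁ - p₂‖ ∈ distSet X ‖x₁ - x₂‖ from
      ⟨x₁, x₂, h1, h2, rfl, p₁, ⟨h4, h6⟩, p₂, ⟨h5, h7⟩, rfl⟩)
    unfold dminus
    linarith [h3'.1]

theorem part_c [CompleteSpace X] [UniformConvexSpace X] (hX : ¬ FiniteDimensional ℝ X) (ε : ℝ)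
    (hε : ε ∈ Icc (0 : ℝ) 2) : dminus X ε ≤ ε := by
  have hlim : Tendsto (fun δ : ℝ => (1 + δ) * (2 * Real.sqrt (3 * δ) + (1 + δ) * ε) + 2 * δ)
      (𝓝[>] 0) (𝓝 ε) := by
    have hc : ContinuousAt (fun δ : ℝ =>
        (1 + δ) * (2 * Real.sqrt (3 * δ) + (1 + δ) * ε) + 2 * δ) 0 := by fun_prop
    have h1 := hc.tendsto
    simp only [add_zero, mul_zero, Real.sqrt_zero, zero_add, one_mul] at h1
    exact h1.mono_left nhdsWithin_le_nhds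
  refine ge_of_tendsto hlim ?_
  filter_upwards [Ioo_mem_nhdsGT (show (0 : ℝ) < 1 by norm_num)] with δ hδ
  obtain ⟨T, hT⟩ := UN.{u} PL (X →L[ℝ] ℝ) (dual_infinite hX) δ hδ.1 hδ.2.le
  obtain ⟨x₁, x₂, p₁, p₂, h1, h2, h3, h4, h5, h6, h7, h8⟩ :=
    UC.PC T δ ε hδ.1 hδ.2.le hT hε.1 hε.2
  exact (csInf_le (bddBelow ε) ⟨x₁, x₂, h1, h2, h3, p₁, ⟨h4, h6⟩, p₂, ⟨h5, h7⟩, rfl⟩).trans h8

end Pool.T2H96.DM.Mod
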