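import Mathlib
import Pool.Agent.T2H96.DM.PC

set_option autoImplicit false

namespace Pool.T2H96.DM.UC

open Filter Topology Set

universe u

variable {X : Type u} [NormedAddCommGroup X] [NormedSpace ℝ X]

/-- every norming sequence of every norm-one functional has a norm convergent subsequence -/
def NormingCompact (X : Type u) [NormedAddCommGroup X] [NormedSpace ℝ X] : Prop :=
  ∀ f : X →L[ℝ] ℝ, ‖f‖ = 1 → ∀ x : ℕ → X, (∀ n, ‖x n‖ ≤ 1) →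
    Tendsto (fun n => f (x n)) atTop (𝓝 1) →
    ∃ (y : X) (φ : ℕ → ℕ), StrictMono φ ∧ Tendsto (fun n => x (φ n)) atTop (𝓝 y)

theorem normingCompact_of_uniformConvex [CompleteSpace X] [UniformConvexSpace X] :
    NormingCompact X := by
  intro f hf x hx hlim
  have hcau : CauchySeq x := by
    rw [Metric.cauchySeq_iff]
    intro ρ hρ
    obtain ⟨τ, hτ, h⟩ := uc_close (X := X) hρ
    obtain ⟨N, hN⟩ := (hlim.eventually (lt_mem_nhds (show 1 - τ < 1 by linarith))).exists_forall_of_atTop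
    refine ⟨N, fun m hm n hn => ?_⟩
    rw [dist_eq_norm]
    exact h f _ _ hf (hx m) (hx n) (hN m hm) (hN n hn)
  obtain ⟨y, hy⟩ := cauchySeq_tendsto_of_complete hcau
  exact ⟨y, id, strictMono_id, hy⟩

theorem seq_norming (f : X →L[ℝ] ℝ) (hf : ‖f‖ = 1) :
    ∃ x : ℕ → X, (∀ n, ‖x n‖ ≤ 1) ∧ Tendsto (fun n => f (x n)) atTop (𝓝 1) := by
  have h1 : ∀ n : ℕ, ∃ x : X, ‖x‖ ≤ 1 ∧ 1 - 1 / ((n : ℝ) + 1) < f x := by
    intro n
    have hn : (0 : ℝ) < 1 / ((n : ℝ) + 1) := by positivity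
    obtain ⟨x, hx1, hx2⟩ := f.exists_lt_apply_of_lt_opNorm (r := 1 - 1 / ((n : ℝ) + 1))
      (by rw [hf]; linarith)
    rw [Real.norm_eq_abs] at hx2
    rcases lt_abs.1 hx2 with h | h
    · exact ⟨x, hx1.le, h⟩
    · exact ⟨-x, by rw [norm_neg]; exact hx1.le, by rw [map_neg]; exact h⟩
  choose x hx1 hx2 using h1
  refine ⟨x, hx1, ?_⟩
  have hlim0 : Tendsto (fun n : ℕ => 1 - 1 / ((n : ℝ) + 1)) atTop (𝓝 (1 - 0)) :=
    (tendsto_one_div_add_atTop_nhds_zero_nat).const_sub 1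
  rw [sub_zero] at hlim0
  refine tendsto_of_tendsto_of_tendsto_of_le_of_le hlim0 tendsto_const_nhds (fun n => (hx2 n).le)
    (fun n => ?_)
  have h4 : f (x n) ≤ ‖f‖ * ‖x n‖ := (le_abs_self _).trans (f.le_opNorm _)
  rw [hf, one_mul] at h4
  exact h4.trans (hx1 n)

theorem exists_norming' (hX : NormingCompact X) (f : X →L[ℝ] ℝ) (hf : ‖f‖ = 1) :
    ∃ x : X, ‖x‖ ≤ 1 ∧ f x = 1 := by
  obtain ⟨x, hx, hlim⟩ := seq_norming f hf
  obtain ⟨y, φ, hφ, hy⟩ := hX f hf x hx hlim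
  refine ⟨y, le_of_tendsto' ((continuous_norm.tendsto y).comp hy) (fun n => hx _), ?_⟩
  exact tendsto_nhds_unique ((f.continuous.tendsto y).comp hy) (hlim.comp hφ.tendsto_atTop)

/-- limits of norming points -/
theorem limit_norming (hX : NormingCompact X) {P : ℝ → (X →L[ℝ] ℝ)} (hPc : Continuous P)
    (hP1 : ∀ θ, ‖P θ‖ = 1) {t : ℕ → ℝ} {θ : ℝ} (ht : Tendsto t atTop (𝓝 θ)) {x : ℕ → X}
    (hx : ∀ n, ‖x n‖ ≤ 1) (hPx : ∀ n, P (t n) (x n) = 1) :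
    ∃ (y : X) (φ : ℕ → ℕ), StrictMono φ ∧ Tendsto (fun n => x (φ n)) atTop (𝓝 y) ∧
      ‖y‖ ≤ 1 ∧ P θ y = 1 := by
  have hlim : Tendsto (fun n => P θ (x n)) atTop (𝓝 1) := by
    have h1 : Tendsto (fun n => ‖P θ - P (t n)‖) atTop (𝓝 0) := by
      have h2 : Tendsto (fun n => ‖P θ - P (t n)‖) atTop (𝓝 ‖P θ - P θ‖) :=
        (((hPc.tendsto θ).comp ht).const_sub (P θ)).norm
      rwa [sub_self, norm_zero] at h2
    rw [tendsto_iff_dist_tendsto_zero]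
    refine squeeze_zero (fun n => dist_nonneg) (fun n => ?_) h1
    rw [Real.dist_eq, ← hPx n]
    have h2 : |(P θ - P (t n)) (x n)| ≤ ‖P θ - P (t n)‖ * ‖x n‖ := (P θ - P (t n)).le_opNorm _
    have h3 : (P θ - P (t n)) (x n) = P θ (x n) - P (t n) (x n) := rfl
    rw [h3] at h2
    refine h2.trans ?_
    exact mul_le_of_le_one_right (norm_nonneg _) (hx n)
  obtain ⟨y, φ, hφ, hy⟩ := hX (P θ) (hP1 θ) x hx hlim
  refine ⟨y, φ, hφ, hy, le_of_tendsto' ((continuous_norm.tendsto y).comp hy) (fun n => hx _), ?_⟩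
  exact tendsto_nhds_unique (((P θ).continuous.tendsto y).comp hy) (hlim.comp hφ.tendsto_atTop)

/-- package PD: exact inequality for spaces with norm compact norming sequences -/
theorem PD (hX : NormingCompact X) (T : ℂ →ₗ[ℝ] (X →L[ℝ] ℝ)) (δ ε : ℝ)
    (hδ : 0 < δ) (hδ1 : δ ≤ 1) (hT : IsPlane δ T) (hε0 : 0 ≤ ε) (hε2 : ε ≤ 2) :
    ∃ (x₁ x₂ : X) (p₁ p₂ : X →L[ℝ] ℝ), ‖x₁‖ = 1 ∧ ‖x₂‖ = 1 ∧ ‖x₁ - x₂‖ = ε ∧
      ‖p₁‖ = 1 ∧ ‖p₂‖ = 1 ∧ p₁ x₁ = 1 ∧ p₂ x₂ = 1 ∧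
      ‖p₁ - p₂‖ ≤ (1 + δ) * (2 * Real.sqrt (3 * δ) + (1 + δ) * ε) + 2 * δ := by
  have hTc : Continuous T := T.continuous_of_finiteDimensional
  let z : ℝ → ℂ := fun θ => Complex.exp ((θ : ℂ) * Complex.I)
  have hz : ∀ θ, ‖z θ‖ = 1 := fun θ => Complex.norm_exp_ofReal_mul_I θ
  have hT1 : ∀ θ, 1 ≤ ‖T (z θ)‖ := fun θ => by have := (hT (z θ)).1; rwa [hz] at this
  have hT2 : ∀ θ, ‖T (z θ)‖ ≤ 1 + δ := fun θ => by have := (hT (z θ)).2; rwa [hz, mul_one] at this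
  let P : ℝ → (X →L[ℝ] ℝ) := fun θ => (‖T (z θ)‖⁻¹ : ℝ) • T (z θ)
  have hP1 : ∀ θ, ‖P θ‖ = 1 := by
    intro θ
    have := hT1 θ
    simp only [P]
    rw [norm_smul, norm_inv, norm_norm, inv_mul_cancel₀ (by linarith)]
  have hPc : Continuous P := by
    have hzc : Continuous z := by fun_prop
    have h1 : Continuous (fun θ => T (z θ)) := hTc.comp hzc
    exact (h1.norm.inv₀ (fun θ => by have := hT1 θ; linarith)).smul h1
  have hn1 : ∀ θ (x : X), ‖x‖ ≤ 1 → P θ x = 1 → ‖x‖ = 1 := by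
    intro θ x hx hPx
    apply le_antisymm hx
    have h4 : P θ x ≤ ‖P θ‖ * ‖x‖ := (le_abs_self _).trans ((P θ).le_opNorm _)
    rw [hP1, one_mul, hPx] at h4
    exact h4
  have hzero : z 0 = 1 := by simp [z]
  have hpi : z Real.pi = -1 := by simp only [z]; exact Complex.exp_pi_mul_I
  have hPpi : P Real.pi = - P 0 := by
    simp only [P]
    rw [hpi, hzero, map_neg, norm_neg, smul_neg]
  obtain ⟨x0, hx0, hPx0⟩ := exists_norming' hX (P 0) (hP1 0)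
  have hx0n := hn1 0 x0 hx0 hPx0
  let KA : Set ℝ := {θ | ∃ x : X, ‖x‖ ≤ 1 ∧ P θ x = 1 ∧ ‖x0 - x‖ ≤ ε}
  let KB : Set ℝ := {θ | ∃ x : X, ‖x‖ ≤ 1 ∧ P θ x = 1 ∧ ε ≤ ‖x0 - x‖}
  have hKA : IsClosed KA := by
    apply IsSeqClosed.isClosed
    intro t θ ht hlim
    choose x hx1 hx2 hx3 using ht
    obtain ⟨y, φ, hφ, hy, hy1, hy2⟩ := limit_norming hX hPc hP1 hlim hx1 hx2
    exact ⟨y, hy1, hy2, le_of_tendsto' ((hy.const_sub x0).norm) (fun n => hx3 _)⟩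
  have hKB : IsClosed KB := by
    apply IsSeqClosed.isClosed
    intro t θ ht hlim
    choose x hx1 hx2 hx3 using ht
    obtain ⟨y, φ, hφ, hy, hy1, hy2⟩ := limit_norming hX hPc hP1 hlim hx1 hx2
    exact ⟨y, hy1, hy2, ge_of_tendsto' ((hy.const_sub x0).norm) (fun n => hx3 _)⟩
  have hpre : IsPreconnected (Icc (0 : ℝ) Real.pi) := isPreconnected_Icc
  rw [isPreconnected_closed_iff] at hpre
  obtain ⟨θ, -, ⟨u, hu1, hu2, hu3⟩, ⟨v, hv1, hv2, hv3⟩⟩ := hpre KA KB hKA hKB (by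
      intro θ _
      obtain ⟨v, hv, hv2⟩ := exists_norming' hX (P θ) (hP1 θ)
      rcases le_total ‖x0 - v‖ ε with hc | hc
      · exact Or.inl ⟨v, hv, hv2, hc⟩
      · exact Or.inr ⟨v, hv, hv2, hc⟩)
    ⟨0, ⟨le_rfl, Real.pi_pos.le⟩, x0, hx0, hPx0, by rw [sub_self, norm_zero]; exact hε0⟩
    ⟨Real.pi, ⟨Real.pi_pos.le, le_rfl⟩, -x0, by rw [norm_neg]; exact hx0, by
      rw [hPpi, map_neg]
      change -(-(P 0 x0)) = 1
      rw [neg_neg]; exact hPx0, by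
      rw [sub_neg_eq_add, ← two_smul ℝ x0, norm_smul, hx0n]
      norm_num
      exact hε2⟩
  have hcont : ContinuousOn (fun s : ℝ => ‖x0 - ((1 - s) • u + s • v)‖) (Icc 0 1) := by fun_prop
  obtain ⟨s, hs, hsε⟩ := intermediate_value_Icc (zero_le_one (α := ℝ)) hcont (show ε ∈ Icc _ _ by
    simp only [sub_zero, one_smul, zero_smul, add_zero, sub_self, zero_add]
    exact ⟨hu3, hv3⟩)
  simp only at hsε
  set x := (1 - s) • u + s • v with hx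
  have hx1 : ‖x‖ ≤ 1 := by
    calc ‖x‖ ≤ ‖(1 - s) • u‖ + ‖s • v‖ := norm_add_le _ _
      _ = (1 - s) * ‖u‖ + s * ‖v‖ := by
          rw [norm_smul, norm_smul, Real.norm_of_nonneg (by linarith [hs.2]),
            Real.norm_of_nonneg hs.1]
      _ ≤ (1 - s) * 1 + s * 1 := by
          have h1 : 0 ≤ 1 - s := by linarith [hs.2]
          have h2 := hs.1
          gcongr
      _ = 1 := by ring
  have hx2 : P θ x = 1 := by
    rw [hx, map_add, map_smul, map_smul, hu2, hv2, smul_eq_mul, smul_eq_mul]; ring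
  refine ⟨x0, x, P 0, P θ, hx0n, hn1 θ x hx1 hx2, hsε, hP1 0, hP1 θ, hPx0, hx2, ?_⟩
  have hPT : ∀ θ, ‖P θ - T (z θ)‖ ≤ δ := by
    intro θ
    have h1 := hT1 θ
    have h2 := hT2 θ
    have h3 : P θ - T (z θ) = (‖T (z θ)‖⁻¹ - 1 : ℝ) • T (z θ) := by
      ext v
      change ‖T (z θ)‖⁻¹ * T (z θ) v - T (z θ) v = (‖T (z θ)‖⁻¹ - 1) * T (z θ) v
      ring
    rw [h3, norm_smul, Real.norm_eq_abs, abs_of_nonpos (by
      have : ‖T (z θ)‖⁻¹ ≤ 1 := inv_le_one_of_one_le₀ h1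
      linarith), neg_sub, sub_mul, one_mul, inv_mul_cancel₀ (by linarith)]
    linarith
  have hTx : ∀ θ (x : X), P θ x = 1 → 1 ≤ T (z θ) x := by
    intro θ x h1
    have h2 := hT1 θ
    simp only [P] at h1
    have h3 : (‖T (z θ)‖⁻¹ • T (z θ)) x = ‖T (z θ)‖⁻¹ * T (z θ) x := rfl
    rw [h3, inv_mul_eq_iff_eq_mul₀ (by linarith), mul_one] at h1
    rw [h1]; exact h2
  have hz1 : ‖z 0 - z θ‖ ≤ 2 * Real.sqrt (3 * δ) + (1 + δ) * ε := by
    have h1 := coo_near T hT hδ hδ1 (z 0) (hz 0) x0 hx0 (hTx 0 x0 hPx0)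
    have h2 := coo_near T hT hδ hδ1 (z θ) (hz θ) x hx1 (hTx θ x hx2)
    have h3 : ‖coo T x0 - coo T x‖ ≤ (1 + δ) * ε := by
      rw [coo_sub, ← hsε]
      exact norm_coo T hT hδ _
    have h4 : z 0 - z θ = -(coo T x0 - z 0) + (coo T x0 - coo T x) + (coo T x - z θ) := by
      ring
    rw [h4]
    refine (norm_add₃_le).trans ?_
    rw [norm_neg]
    linarith
  have h5 : P 0 - P θ = (P 0 - T (z 0)) + T (z 0 - z θ) + (-(P θ - T (z θ))) := by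
    rw [map_sub]; abel
  rw [h5]
  refine (norm_add₃_le).trans ?_
  rw [norm_neg]
  have h6 := hPT 0
  have h7 := hPT θ
  have h8 := (hT (z 0 - z θ)).2
  have h9 : (1 + δ) * ‖z 0 - z θ‖ ≤ (1 + δ) * (2 * Real.sqrt (3 * δ) + (1 + δ) * ε) :=
    mul_le_mul_of_nonneg_left hz1 (by linarith)
  linarith

end Pool.T2H96.DM.UC
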