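import Mathlib
import Pool.Agent.T2H96.DM.Main
import Pool.Agent.T2H96.DM.PD

set_option autoImplicit false

namespace Pool.T2H96.DM.Mod

open Set Filter Topology Pool.T2H96.DM

universe u

variable {X : Type u} [NormedAddCommGroup X] [NormedSpace ℝ X]

theorem part_d (hN : UC.NormingCompact X) (hX : ¬ FiniteDimensional ℝ X) (ε : ℝ)
    (hε : ε ∈ Icc (0 : ℝ) 2) : dminus X ε ≤ ε := by
  have hlim : Tendsto (fun δ : ℝ => (1 + δ) * (2 * Real.sqrt (3 * δ) + (1 + δ) * ε) + 2 * δ)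
      (𝓝[>] 0) (𝓝 ε) := by
    have hc : ContinuousAt (fun δ : ℝ =>
        (1 + δ) * (2 * Real.sqrt (3 * δ) + (1 + δ) * ε) + 2 * δ) 0 := by fun_prop
    have h1 := hc.tendsto
    simp only [add_zero, mul_zero, Real.sqrt_zero, zero_add, one_mul] at h1
    exact h1.mono_left nhdsWithin_le_nhds
  refine ge_of_tendsto hlim ?_
  filter_upwards [Ioo_mem_nhdsGT (show (0 : ℝ) < 1 by norm_num)] with δ hδ
  obtain ⟨T, hT⟩ := UN.{u} PL (X →L[ℝ] ℝ) (dual_infinite hX) δ hδ.1 hδ.2.le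
  obtain ⟨x₁, x₂, p₁, p₂, h1, h2, h3, h4, h5, h6, h7, h8⟩ :=
    UC.PD hN T δ ε hδ.1 hδ.2.le hT hε.1 hε.2
  exact (csInf_le (bddBelow ε) ⟨x₁, x₂, h1, h2, h3, p₁, ⟨h4, h6⟩, p₂, ⟨h5, h7⟩, rfl⟩).trans h8

end Pool.T2H96.DM.Mod
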